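import Pool.Agent.V1173.Opa.Defs

/-!
# The explicit polynomial is the optimal approximant
-/

open Filter Topology Polynomial

namespace Pool.Agent.V1173.Opa

/-- the function `f = (1 + z)²` -/
noncomputable def fpol : ℂ[X] := (1 + X) ^ 2

lemma Gp_coeff (b : ℕ → ℝ) (N k : ℕ) :
    (Gp b N).coeff k = if k ≤ N then ((gc b N k * (-1) ^ k : ℝ) : ℂ) else 0 := by
  rw [Gp, finsetSum_coeff]
  simp only [coeff_C_mul_X_pow]
  by_cases h : k ≤ N
  · rw [if_pos h, Finset.sum_eq_single k]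
    · simp
    · intro j _ hj
      rw [if_neg (by omega)]
    · intro hk
      exact absurd (Finset.mem_range.2 (by omega)) hk
  · rw [if_neg h]
    refine Finset.sum_eq_zero fun j hj => ?_
    rw [if_neg]
    rintro rfl
    exact h (Nat.lt_succ_iff.1 (Finset.mem_range.1 hj))

lemma Gp_eval (b : ℕ → ℝ) (N : ℕ) (z : ℂ) : (Gp b N).eval z = Gv b N z := by
  rw [Gp, Gv, eval_finsetSum]
  refine Finset.sum_congr rfl fun k _ => ?_
  rw [eval_mul, eval_C, eval_pow, eval_X, neg_pow z k]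
  push_cast
  ring

lemma Gv_neg_one {b : ℕ → ℝ} (hb : ∀ k, 0 < b k) {N : ℕ} (hN : 1 ≤ N) : Gv b N (-1) = 1 := by
  rw [Gv]
  simp only [neg_neg, one_pow, mul_one]
  rw [← Complex.ofReal_sum, sum_gc hb hN, Complex.ofReal_one]

lemma Gp_deriv_neg_one (b : ℕ → ℝ) (N : ℕ) : (derivative (Gp b N)).eval (-1) = 0 := by
  rw [Gp, derivative_sum, eval_finsetSum]
  have h : ∀ k ∈ Finset.range (N + 1),
      (derivative (C ((gc b N k * (-1) ^ k : ℝ) : ℂ) * X ^ k)).eval (-1) =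
        -(((k : ℝ) * gc b N k : ℝ) : ℂ) := by
    intro k _
    rw [derivative_C_mul_X_pow, eval_mul, eval_C, eval_pow, eval_X]
    rcases k with _ | k
    · simp
    · have h1 : (-1 : ℂ) ^ k * (-1) ^ k = 1 := by
        rw [← mul_pow]; simp
      rw [Nat.add_sub_cancel]
      push_cast
      rw [pow_succ]
      linear_combination (-(gc b N (k + 1) : ℂ) * (k + 1)) * h1
  rw [Finset.sum_congr rfl h, Finset.sum_neg_distrib, ← Complex.ofReal_sum, sum_k_gc]
  simp

lemma fpol_eq : fpol = (X - C (-1)) ^ 2 := by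
  rw [fpol]; simp [add_comm]

/-- polynomials with a double zero at `-1` are divisible by `f` -/
lemma fpol_dvd {P : ℂ[X]} (h0 : P.eval (-1) = 0) (h1 : (derivative P).eval (-1) = 0) :
    fpol ∣ P := by
  by_cases hP : P = 0
  · rw [hP]; exact dvd_zero _
  rw [fpol_eq, ← le_rootMultiplicity_iff hP]
  exact (one_lt_rootMultiplicity_iff_isRoot hP).2 ⟨h0, h1⟩

lemma fpol_ne : fpol ≠ 0 := by
  rw [fpol_eq]; exact pow_ne_zero _ (X_sub_C_ne_zero _)

lemma fpol_natDegree : fpol.natDegree = 2 := by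
  rw [fpol_eq, natDegree_pow, natDegree_X_sub_C]

lemma exists_q {b : ℕ → ℝ} (hb : ∀ k, 0 < b k) {N : ℕ} (hN : 1 ≤ N) :
    ∃ q : ℂ[X], q * fpol = 1 - Gp b N ∧ q.natDegree ≤ N - 2 := by
  have h0 : (1 - Gp b N).eval (-1) = 0 := by
    rw [eval_sub, eval_one, Gp_eval, Gv_neg_one hb hN, sub_self]
  have h1 : (derivative (1 - Gp b N)).eval (-1) = 0 := by
    rw [derivative_sub, eval_sub, Gp_deriv_neg_one]; simp
  obtain ⟨q, hq⟩ := fpol_dvd h0 h1
  refine ⟨q, by rw [hq, mul_comm], ?_⟩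
  by_cases hq0 : q = 0
  · rw [hq0]; simp
  have hdeg : (1 - Gp b N).natDegree ≤ N := by
    rw [natDegree_le_iff_coeff_eq_zero]
    intro k hk
    rw [coeff_sub, Gp_coeff, if_neg (by omega), coeff_one, if_neg (by omega), sub_zero]
  have h2 : (1 - Gp b N).natDegree = 2 + q.natDegree := by
    rw [hq, natDegree_mul fpol_ne hq0, fpol_natDegree]
  omega

/-- squared norm of a polynomial -/
lemma nsq_poly (ω : ℕ → ℝ) {P : ℂ[X]} {N : ℕ} (hP : P.natDegree ≤ N) :
    nsq ω (P : PowerSeries ℂ) = ∑ k ∈ Finset.range (N + 1), ‖P.coeff k‖ ^ 2 * ω k := by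
  rw [nsq, tsum_eq_sum (s := Finset.range (N + 1))]
  · simp only [Polynomial.coeff_coe]
  · intro k hk
    rw [Finset.mem_range, not_lt] at hk
    rw [Polynomial.coeff_coe, coeff_eq_zero_of_natDegree_lt (by omega)]
    simp

lemma mem_poly (ω : ℕ → ℝ) (P : ℂ[X]) : Mem ω (P : PowerSeries ℂ) := by
  refine summable_of_ne_finset_zero (s := Finset.range (P.natDegree + 1)) fun k hk => ?_
  rw [Finset.mem_range, not_lt] at hk
  rw [Polynomial.coeff_coe, coeff_eq_zero_of_natDegree_lt (by omega)]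
  simp

lemma eval_neg_one_eq {h : ℂ[X]} {N : ℕ} (hh : h.natDegree ≤ N) :
    h.eval (-1) = ∑ k ∈ Finset.range (N + 1), h.coeff k * (-1) ^ k :=
  eval_eq_sum_range' (by omega) _

lemma deriv_neg_one_eq {h : ℂ[X]} {N : ℕ} (hh : h.natDegree ≤ N) :
    (derivative h).eval (-1) = -∑ k ∈ Finset.range (N + 1), h.coeff k * ((k : ℂ) * (-1) ^ k) := by
  have h1 : h = ∑ k ∈ Finset.range (N + 1), C (h.coeff k) * X ^ k :=
    as_sum_range_C_mul_X_pow' h (Nat.lt_succ_of_le hh)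
  conv_lhs => rw [h1]
  rw [derivative_sum, eval_finsetSum, ← Finset.sum_neg_distrib]
  refine Finset.sum_congr rfl fun k _ => ?_
  rw [derivative_C_mul_X_pow, eval_mul, eval_C, eval_pow, eval_X]
  rcases k with _ | k
  · simp
  · rw [Nat.add_sub_cancel, pow_succ]
    ring

/-- Orthogonality of `G` to the multiples of `f`. -/
lemma orth {b : ℕ → ℝ} (hb : ∀ k, 0 < b k) {N : ℕ} {h : ℂ[X]} (hh : h.natDegree ≤ N)
    (h0 : h.eval (-1) = 0) (h1 : (derivative h).eval (-1) = 0) :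
    ∑ k ∈ Finset.range (N + 1), (h.coeff k).re * (gc b N k * (-1) ^ k) * (b k)⁻¹ = 0 := by
  rw [eval_neg_one_eq hh] at h0
  rw [deriv_neg_one_eq hh, neg_eq_zero] at h1
  have h2 : ∑ k ∈ Finset.range (N + 1), h.coeff k * (((al b N - be b N * k) * (-1) ^ k : ℝ) : ℂ)
      = 0 := by
    have : ∀ k : ℕ, h.coeff k * (((al b N - be b N * k) * (-1) ^ k : ℝ) : ℂ) =
        (al b N : ℂ) * (h.coeff k * (-1) ^ k) - (be b N : ℂ) * (h.coeff k * ((k : ℂ) * (-1) ^ k)) := by
      intro k; push_cast; ring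
    simp only [this, Finset.sum_sub_distrib, ← Finset.mul_sum, h0, h1]
    simp
  have h3 := congrArg Complex.re h2
  rw [Complex.re_sum, Complex.zero_re] at h3
  rw [← h3]
  refine Finset.sum_congr rfl fun k _ => ?_
  rw [Complex.re_mul_ofReal, gc]
  have := (hb k).ne'
  field_simp

/-- The explicit `q` is the optimal polynomial approximant. -/
lemma isOPA {b : ℕ → ℝ} (hb : ∀ k, 0 < b k) {N : ℕ} (hN : 2 ≤ N) {q : ℂ[X]}
    (hq : q * fpol = 1 - Gp b N) (hqd : q.natDegree ≤ N - 2) :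
    IsOPA (fun k => (b k)⁻¹) (fpol : PowerSeries ℂ) (N - 2) q := by
  refine ⟨hqd, fun p hp hpq => ?_⟩
  set h : ℂ[X] := (p - q) * fpol with hh
  have hpq' : p - q ≠ 0 := sub_ne_zero.2 hpq
  have hh0 : h ≠ 0 := mul_ne_zero hpq' fpol_ne
  have hhd : h.natDegree ≤ N := by
    rw [hh, natDegree_mul hpq' fpol_ne, fpol_natDegree]
    have := natDegree_sub_le p q
    omega
  have hd : fpol ∣ h := Dvd.intro_left _ rfl
  have hroot : 1 < h.rootMultiplicity (-1) := by
    have := (le_rootMultiplicity_iff hh0 (a := (-1 : ℂ)) (n := 2)).2 (fpol_eq ▸ hd)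
    omega
  obtain ⟨h0, h1⟩ := (one_lt_rootMultiplicity_iff_isRoot hh0).1 hroot
  have horth := orth hb hhd h0 h1
  have hGd : (-Gp b N).natDegree ≤ N := by
    rw [natDegree_neg, natDegree_le_iff_coeff_eq_zero]
    intro k hk
    rw [Gp_coeff, if_neg (by omega)]
  have e1 : ((q : ℂ[X]) : PowerSeries ℂ) * (fpol : PowerSeries ℂ) - 1 =
      ((-Gp b N : ℂ[X]) : PowerSeries ℂ) := by
    rw [← Polynomial.coe_mul, hq]
    push_cast
    ring
  have e2 : ((p : ℂ[X]) : PowerSeries ℂ) * (fpol : PowerSeries ℂ) - 1 =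
      ((h - Gp b N : ℂ[X]) : PowerSeries ℂ) := by
    have : p * fpol = h + (1 - Gp b N) := by rw [hh, ← hq]; ring
    rw [← Polynomial.coe_mul, this]
    push_cast
    ring
  have hhGd : (h - Gp b N).natDegree ≤ N := by
    rw [sub_eq_add_neg]
    exact (natDegree_add_le _ _).trans (max_le hhd hGd)
  rw [e1, e2, nsq_poly _ hGd, nsq_poly _ hhGd]
  have e3 : ∀ k ∈ Finset.range (N + 1), ‖(h - Gp b N).coeff k‖ ^ 2 * (b k)⁻¹ =
      ‖(-Gp b N).coeff k‖ ^ 2 * (b k)⁻¹ + ‖h.coeff k‖ ^ 2 * (b k)⁻¹ -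
        2 * ((h.coeff k).re * (gc b N k * (-1) ^ k) * (b k)⁻¹) := by
    intro k hk
    have hk' : k ≤ N := Nat.lt_succ_iff.1 (Finset.mem_range.1 hk)
    rw [coeff_sub, coeff_neg, Gp_coeff, if_pos hk', norm_neg]
    rw [← Complex.normSq_eq_norm_sq, ← Complex.normSq_eq_norm_sq, ← Complex.normSq_eq_norm_sq]
    rw [Complex.normSq_apply, Complex.normSq_apply, Complex.normSq_apply, Complex.sub_re,
      Complex.sub_im, Complex.ofReal_re, Complex.ofReal_im]
    ring
  rw [Finset.sum_congr rfl e3, Finset.sum_sub_distrib, Finset.sum_add_distrib, ← Finset.mul_sum,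
    horth]
  obtain ⟨k, hk⟩ : ∃ k, h.coeff k ≠ 0 := by
    by_contra hcon
    push Not at hcon
    exact hh0 (Polynomial.ext fun k => by rw [hcon k, coeff_zero])
  have hkN : k ≤ N := by
    by_contra hlt
    exact hk (coeff_eq_zero_of_natDegree_lt (by omega))
  have hpos : 0 < ∑ k ∈ Finset.range (N + 1), ‖h.coeff k‖ ^ 2 * (b k)⁻¹ := by
    refine Finset.sum_pos' (fun j _ => ?_) ⟨k, Finset.mem_range.2 (by omega), ?_⟩
    · have := hb j
      positivity
    · have := hb k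
      have := norm_pos_iff.2 hk
      positivity
  linarith

/-- The squared distance is `α`. -/
lemma nsq_q {b : ℕ → ℝ} (hb : ∀ k, 0 < b k) {N : ℕ} (hN : 1 ≤ N) {q : ℂ[X]}
    (hq : q * fpol = 1 - Gp b N) :
    nsq (fun k => (b k)⁻¹) ((q : PowerSeries ℂ) * (fpol : PowerSeries ℂ) - 1) = al b N := by
  have hGd : (-Gp b N).natDegree ≤ N := by
    rw [natDegree_neg, natDegree_le_iff_coeff_eq_zero]
    intro k hk
    rw [Gp_coeff, if_neg (by omega)]
  have e1 : ((q : ℂ[X]) : PowerSeries ℂ) * (fpol : PowerSeries ℂ) - 1 =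
      ((-Gp b N : ℂ[X]) : PowerSeries ℂ) := by
    rw [← Polynomial.coe_mul, hq]
    push_cast
    ring
  rw [e1, nsq_poly _ hGd]
  have h1 : ∀ k ∈ Finset.range (N + 1), ‖(-Gp b N).coeff k‖ ^ 2 * (b k)⁻¹ =
      al b N * gc b N k - be b N * ((k : ℝ) * gc b N k) := by
    intro k hk
    have hk' : k ≤ N := Nat.lt_succ_iff.1 (Finset.mem_range.1 hk)
    rw [coeff_neg, Gp_coeff, if_pos hk', norm_neg, Complex.norm_real, Real.norm_eq_abs, sq_abs]
    have h2 : (((-1 : ℝ)) ^ k) ^ 2 = 1 := by rw [← pow_mul, mul_comm, pow_mul]; simp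
    have h3 := (hb k).ne'
    rw [mul_pow, h2, mul_one, gc]
    field_simp
  rw [Finset.sum_congr rfl h1, Finset.sum_sub_distrib, ← Finset.mul_sum, ← Finset.mul_sum,
    sum_gc hb hN, sum_k_gc]
  ring

end Pool.Agent.V1173.Opa
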