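import Pool.Agent.V1173.Opa.Zero

/-!
# Asymptotics of the constants for eventually geometric sequences
-/

open Filter Topology

namespace Pool.Agent.V1173.Opa

/-- `log c_N = o(N)` for polynomially bounded `c_N` -/
lemma log_div_tendsto {c : ℕ → ℝ} {A : ℝ} (hA : 1 ≤ A)
    (h : ∀ᶠ N : ℕ in atTop, A⁻¹ * ((N : ℝ) + 1)⁻¹ ^ 3 ≤ c N ∧ c N ≤ A * ((N : ℝ) + 1) ^ 3) :
    Tendsto (fun N : ℕ => Real.log (c N) / (N + 1)) atTop (𝓝 0) := by
  have h1 : Tendsto (fun N : ℕ => ((N : ℝ) + 1)) atTop atTop :=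
    tendsto_atTop_add_const_right _ _ tendsto_natCast_atTop_atTop
  have h2 : Tendsto (fun N : ℕ => Real.log ((N : ℝ) + 1) / ((N : ℝ) + 1)) atTop (𝓝 0) :=
    (Real.isLittleO_log_id_atTop.tendsto_div_nhds_zero).comp h1
  have h3 : Tendsto (fun N : ℕ => Real.log A / ((N : ℝ) + 1)) atTop (𝓝 0) :=
    tendsto_const_nhds.div_atTop h1
  have h4 : Tendsto (fun N : ℕ => Real.log A / ((N : ℝ) + 1) +
      3 * (Real.log ((N : ℝ) + 1) / ((N : ℝ) + 1))) atTop (𝓝 0) := by
    have := h3.add (h2.const_mul 3)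
    simpa using this
  refine squeeze_zero_norm' ?_ h4
  filter_upwards [h] with N hN
  have hN1 : (1 : ℝ) ≤ (N : ℝ) + 1 := by
    have : (0 : ℝ) ≤ N := by positivity
    linarith
  have hN0 : (0 : ℝ) < (N : ℝ) + 1 := by linarith
  have hA0 : 0 < A := by linarith
  have hlow : 0 < A⁻¹ * ((N : ℝ) + 1)⁻¹ ^ 3 := by positivity
  have hc : 0 < c N := lt_of_lt_of_le hlow hN.1
  have hl1 : Real.log (c N) ≤ Real.log A + 3 * Real.log ((N : ℝ) + 1) := by
    have := Real.log_le_log hc hN.2
    rw [Real.log_mul hA0.ne' (by positivity), Real.log_pow] at this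
    push_cast at this
    exact this
  have hl2 : -(Real.log A + 3 * Real.log ((N : ℝ) + 1)) ≤ Real.log (c N) := by
    have := Real.log_le_log hlow hN.1
    rw [Real.log_mul (by positivity) (by positivity), Real.log_pow, Real.log_inv,
      Real.log_inv] at this
    push_cast at this
    linarith
  rw [norm_div, Real.norm_eq_abs, Real.norm_eq_abs, abs_of_pos hN0]
  have h5 : |Real.log (c N)| ≤ Real.log A + 3 * Real.log ((N : ℝ) + 1) := abs_le.2 ⟨hl2, hl1⟩
  calc |Real.log (c N)| / ((N : ℝ) + 1) ≤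
      (Real.log A + 3 * Real.log ((N : ℝ) + 1)) / ((N : ℝ) + 1) := by gcongr
    _ = _ := by ring

section
variable {b : ℕ → ℝ} {M : ℕ}

lemma mono_of (hm : ∀ k, b k ≤ b (k + 1)) : Monotone b := monotone_nat_of_le_succ hm

lemma S0_le (hm : ∀ k, b k ≤ b (k + 1)) (N : ℕ) : S 0 b N ≤ (N + 1) * b N := by
  have : ∀ k ∈ Finset.range (N + 1), (k : ℝ) ^ 0 * b k ≤ b N := fun k hk => by
    rw [pow_zero, one_mul]
    exact mono_of hm (Nat.lt_succ_iff.1 (Finset.mem_range.1 hk))
  have h := Finset.sum_le_sum this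
  simp only [Finset.sum_const, Finset.card_range, nsmul_eq_mul] at h
  push_cast at h
  exact h

lemma S1_ge (hb : ∀ k, 0 < b k) (N : ℕ) : N * b N ≤ S 1 b N := by
  have := Finset.single_le_sum (f := fun k : ℕ => (k : ℝ) ^ 1 * b k) (s := Finset.range (N + 1))
    (fun k _ => mul_nonneg (by positivity) (hb k).le) (Finset.mem_range.2 (Nat.lt_succ_self N))
  simpa [S] using this

lemma gap_eq (N : ℕ) : be b N * N - al b N = (N * S 1 b N - S 2 b N) / Dl b N := by
  rw [be, al]; ring

lemma gap_nonneg (hb : ∀ k, 0 < b k) {N : ℕ} (hN : 1 ≤ N) : 0 ≤ be b N * N - al b N := by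
  linarith [al_le_be hb hN]

/-- the upper bound for `c_N` -/
lemma cc_le (hb : ∀ k, 0 < b k) {r : ℝ} (hr : 1 ≤ r) {N : ℕ} (hN : 1 ≤ N) :
    cc b r N ≤ r * b N * (be b N * (N + 1)) := by
  rw [cc]
  have hbe := be_nonneg hb hN
  have hal := al_nonneg hb hN
  have hgap := gap_nonneg hb hN
  have h1 : (be b N * N - al b N) / (1 + r) ≤ be b N * N - al b N :=
    div_le_self hgap (by linarith)
  have h2 : be b N / (1 + r) ^ 2 ≤ be b N :=
    div_le_self hbe (one_le_pow₀ (by linarith))
  have h3 : (be b N * N - al b N) / (1 + r) + be b N / (1 + r) ^ 2 ≤ be b N * (N + 1) := by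
    nlinarith
  exact mul_le_mul_of_nonneg_left h3 (mul_nonneg (by linarith) (hb N).le)

/-! ### The constant case -/

theorem asym_one (hb1 : ∀ k, 1 ≤ b k) (hm : ∀ k, b k ≤ b (k + 1))
    (hc : ∀ k, M ≤ k → b (k + 1) = 1 * b k) :
    Tendsto (al b) atTop (𝓝 0) ∧ Tendsto (be b) atTop (𝓝 0) ∧
    (∀ᶠ N : ℕ in atTop, 0 < cc b 1 N) ∧
    Tendsto (fun N : ℕ => Real.log (cc b 1 N)) atTop atBot ∧
    Tendsto (fun N : ℕ => Real.log (cc b 1 N) / (N + 1)) atTop (𝓝 0) := by
  have hb : ∀ k, 0 < b k := fun k => lt_of_lt_of_le one_pos (hb1 k)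
  set C := b M with hC
  have hC1 : 1 ≤ C := hb1 M
  have hconst : ∀ k, M ≤ k → b k = C := by
    intro k hk
    induction k, hk using Nat.le_induction with
    | base => rfl
    | succ k hk ih => rw [hc k hk, one_mul, ih]
  -- bound for beta
  have hbe : ∀ᶠ N : ℕ in atTop, be b N ≤ 12 * C / (((N : ℝ) + 1) * (N + 2)) := by
    filter_upwards [eventually_ge_atTop M, eventually_ge_atTop 1] with N hN hN1
    have hNp : (0 : ℝ) < N := by exact_mod_cast (by omega : 0 < N)
    have h1 : S 1 b N ≤ N * ((N + 1) * C) := by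
      have := S0_le hm N
      rw [hconst N hN] at this
      exact (S1_le hb N).trans (mul_le_mul_of_nonneg_left this hNp.le)
    have h2 := Dl_ge_one hb1 N
    have h3 : (0 : ℝ) < (N : ℝ) * (N + 1) ^ 2 * (N + 2) / 12 := by positivity
    rw [be]
    calc S 1 b N / Dl b N ≤ (N * ((N + 1) * C)) / ((N : ℝ) * (N + 1) ^ 2 * (N + 2) / 12) := by
          have := S_nonneg hb 1 N
          gcongr
      _ = 12 * C / (((N : ℝ) + 1) * (N + 2)) := by field_simp
  have hN1t : Tendsto (fun N : ℕ => ((N : ℝ) + 1)) atTop atTop :=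
    tendsto_atTop_add_const_right _ _ tendsto_natCast_atTop_atTop
  have hN2t : Tendsto (fun N : ℕ => ((N : ℝ) + 2)) atTop atTop :=
    tendsto_atTop_add_const_right _ _ tendsto_natCast_atTop_atTop
  have hT1 : Tendsto (fun N : ℕ => 12 * C / ((N : ℝ) + 2)) atTop (𝓝 0) :=
    tendsto_const_nhds.div_atTop hN2t
  have hbe' : ∀ᶠ N : ℕ in atTop, be b N * (N + 1) ≤ 12 * C / ((N : ℝ) + 2) := by
    filter_upwards [hbe] with N hN
    have : (0 : ℝ) < (N : ℝ) + 1 := by positivity
    calc be b N * (N + 1) ≤ 12 * C / (((N : ℝ) + 1) * (N + 2)) * (N + 1) := by gcongr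
      _ = _ := by field_simp
  have hbet : Tendsto (be b) atTop (𝓝 0) := by
    refine squeeze_zero' ?_ ?_ hT1
    · filter_upwards [eventually_ge_atTop 1] with N hN using be_nonneg hb hN
    · filter_upwards [hbe', eventually_ge_atTop 1] with N hN hN1
      have h0 := be_nonneg hb hN1
      have : (0 : ℝ) ≤ N := by positivity
      nlinarith
  have halt : Tendsto (al b) atTop (𝓝 0) := by
    refine squeeze_zero' ?_ ?_ hT1
    · filter_upwards [eventually_ge_atTop 1] with N hN using al_nonneg hb hN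
    · filter_upwards [hbe', eventually_ge_atTop 1] with N hN hN1
      have h0 := be_nonneg hb hN1
      have h1 := al_le_be hb hN1
      nlinarith
  -- bounds for c_N
  have hup : ∀ᶠ N : ℕ in atTop, cc b 1 N ≤ 12 * C ^ 2 / ((N : ℝ) + 2) := by
    filter_upwards [hbe', eventually_ge_atTop M, eventually_ge_atTop 1] with N h1 h2 h3
    refine (cc_le hb le_rfl h3).trans ?_
    rw [one_mul, hconst N h2]
    calc C * (be b N * (N + 1)) ≤ C * (12 * C / ((N : ℝ) + 2)) := by gcongr
      _ = _ := by ring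
  have hlow : ∀ᶠ N : ℕ in atTop, (12 * C ^ 2)⁻¹ * ((N : ℝ) + 1)⁻¹ ^ 3 ≤ cc b 1 N := by
    filter_upwards [eventually_ge_atTop M, eventually_ge_atTop 1] with N h2 h3
    have hNp : (0 : ℝ) < N := by exact_mod_cast (by omega : 0 < N)
    have hD := Dl_pos hb h3
    have hDle : Dl b N ≤ C ^ 2 * N ^ 2 * ((N : ℝ) + 1) ^ 2 := by
      have h4 : S 0 b N ≤ (N + 1) * C := by
        have := S0_le hm N
        rwa [hconst N h2] at this
      have h5 : S 2 b N ≤ N * (N * ((N + 1) * C)) :=
        (S2_le hb N).trans (mul_le_mul_of_nonneg_left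
          ((S1_le hb N).trans (mul_le_mul_of_nonneg_left h4 hNp.le)) hNp.le)
      have h6 : S 0 b N * S 2 b N ≤ ((N + 1) * C) * (N * (N * ((N + 1) * C))) :=
        mul_le_mul h4 h5 (S_nonneg hb 2 N) (by positivity)
      rw [Dl]
      nlinarith [sq_nonneg (S 1 b N)]
    have hS1 : (N : ℝ) ≤ S 1 b N := by
      have := S1_ge hb N
      nlinarith [hb1 N]
    have hbe1 : (N : ℝ) / (C ^ 2 * N ^ 2 * ((N : ℝ) + 1) ^ 2) ≤ be b N := by
      rw [be]
      exact div_le_div₀ (S_nonneg hb 1 N) hS1 hD hDle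
    have hcc : be b N / 4 ≤ cc b 1 N := by
      rw [cc]
      have hg := gap_nonneg hb h3
      have hbe0 := be_nonneg hb h3
      have h7 : 0 ≤ (be b N * N - al b N) / (1 + 1) := by positivity
      have h8 : be b N / (1 + 1) ^ 2 = be b N / 4 := by norm_num
      rw [h8]
      have h9 := hb1 N
      have h10 : 0 ≤ be b N / 4 := by positivity
      nlinarith
    refine le_trans ?_ hcc
    have h11 : (12 * C ^ 2)⁻¹ * ((N : ℝ) + 1)⁻¹ ^ 3 ≤
        (N : ℝ) / (C ^ 2 * N ^ 2 * ((N : ℝ) + 1) ^ 2) / 4 := by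
      have h12 : (N : ℝ) / (C ^ 2 * N ^ 2 * ((N : ℝ) + 1) ^ 2) / 4 =
          1 / (4 * C ^ 2 * N * ((N : ℝ) + 1) ^ 2) := by
        field_simp
      have h13 : (12 * C ^ 2)⁻¹ * ((N : ℝ) + 1)⁻¹ ^ 3 = 1 / (12 * C ^ 2 * ((N : ℝ) + 1) ^ 3) := by
        field_simp
      rw [h12, h13]
      apply one_div_le_one_div_of_le (by positivity)
      have h14 : 4 * C ^ 2 * N * ((N : ℝ) + 1) ^ 2 ≤ 4 * C ^ 2 * (N + 1) * ((N : ℝ) + 1) ^ 2 := by
        have : (N : ℝ) ≤ N + 1 := by linarith
        gcongr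
      nlinarith [sq_nonneg C, pow_pos (show (0 : ℝ) < (N : ℝ) + 1 by positivity) 3,
        mul_nonneg (sq_nonneg C) (pow_pos (show (0 : ℝ) < (N : ℝ) + 1 by positivity) 3).le]
    exact h11.trans (div_le_div_of_nonneg_right hbe1 (by norm_num))
  have hpos : ∀ᶠ N : ℕ in atTop, 0 < cc b 1 N := by
    filter_upwards [hlow] with N hN
    refine lt_of_lt_of_le ?_ hN
    positivity
  refine ⟨halt, hbet, hpos, ?_, ?_⟩
  · have hT2 : Tendsto (fun N : ℕ => 12 * C ^ 2 / ((N : ℝ) + 2)) atTop (𝓝 0) :=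
      tendsto_const_nhds.div_atTop hN2t
    have hcct : Tendsto (fun N : ℕ => cc b 1 N) atTop (𝓝[>] 0) := by
      rw [tendsto_nhdsWithin_iff]
      refine ⟨squeeze_zero' (hpos.mono fun N h => h.le) hup hT2, hpos⟩
    exact Real.tendsto_log_nhdsGT_zero.comp hcct
  · refine log_div_tendsto (A := 12 * C ^ 2) (by nlinarith) ?_
    filter_upwards [hlow, hup] with N h1 h2
    refine ⟨h1, h2.trans ?_⟩
    have h3 : (1 : ℝ) ≤ ((N : ℝ) + 1) ^ 3 := one_le_pow₀ (by
      have : (0 : ℝ) ≤ N := by positivity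
      linarith)
    have h4 : 12 * C ^ 2 / ((N : ℝ) + 2) ≤ 12 * C ^ 2 := by
      apply div_le_self (by positivity)
      have : (0 : ℝ) ≤ N := by positivity
      linarith
    nlinarith [sq_nonneg C]

/-! ### The growing case -/

/-- second moment seen from `N` -/
noncomputable def V (b : ℕ → ℝ) (N : ℕ) : ℝ :=
  ∑ k ∈ Finset.range (N + 1), b k * ((N : ℝ) - k) ^ 2

lemma V_eq (N : ℕ) : V b N = N ^ 2 * S 0 b N - 2 * N * S 1 b N + S 2 b N := by
  simp only [V, S, Finset.mul_sum, ← Finset.sum_sub_distrib, ← Finset.sum_add_distrib]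
  refine Finset.sum_congr rfl fun k _ => ?_
  ring

lemma Dl_le_V (N : ℕ) : Dl b N ≤ S 0 b N * V b N := by
  rw [V_eq, Dl]
  nlinarith [sq_nonneg (N * S 0 b N - S 1 b N)]

lemma S0_bound (hb : ∀ k, 0 < b k) {r : ℝ} (hr : 1 < r)
    (hc : ∀ k, M ≤ k → b (k + 1) = r * b k) :
    ∃ C : ℝ, 1 ≤ C ∧ ∀ N, M ≤ N → S 0 b N ≤ C * b N := by
  refine ⟨max (max (S 0 b M / b M) (r / (r - 1))) 1, le_max_right _ _, fun N hN => ?_⟩
  set C := max (max (S 0 b M / b M) (r / (r - 1))) 1 with hC
  have hC1 : S 0 b M / b M ≤ C := (le_max_left _ _).trans (le_max_left _ _)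
  have hC2 : r / (r - 1) ≤ C := (le_max_right _ _).trans (le_max_left _ _)
  induction N, hN using Nat.le_induction with
  | base => rwa [div_le_iff₀ (hb M)] at hC1
  | succ N hN ih =>
      have h1 : S 0 b (N + 1) = S 0 b N + b (N + 1) := by
        rw [S, Finset.sum_range_succ]; simp [S]
      rw [h1, hc N hN]
      rw [div_le_iff₀ (by linarith)] at hC2
      nlinarith [hb N]

lemma V_bound (hb : ∀ k, 0 < b k) {r : ℝ} (hr : 1 < r)
    (hc : ∀ k, M ≤ k → b (k + 1) = r * b k) :
    ∃ C : ℝ, 1 ≤ C ∧ ∀ N, M ≤ N → V b N ≤ C * b N := by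
  obtain ⟨C0, hC0, hS⟩ := S0_bound hb hr hc
  set η : ℝ := (r - 1) / 2 with hη
  have hη0 : 0 < η := by rw [hη]; linarith
  refine ⟨max (max (V b M / b M) ((1 + 1 / η) * C0 / η)) 1, le_max_right _ _, fun N hN => ?_⟩
  set C := max (max (V b M / b M) ((1 + 1 / η) * C0 / η)) 1 with hC
  have hC1 : V b M / b M ≤ C := (le_max_left _ _).trans (le_max_left _ _)
  have hC2 : (1 + 1 / η) * C0 / η ≤ C := (le_max_right _ _).trans (le_max_left _ _)
  induction N, hN using Nat.le_induction with
  | base => rwa [div_le_iff₀ (hb M)] at hC1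
  | succ N hN ih =>
      have h1 : V b (N + 1) ≤ (1 + η) * V b N + (1 + 1 / η) * S 0 b N := by
        rw [V, Finset.sum_range_succ]
        have h2 : b (N + 1) * (((N + 1 : ℕ) : ℝ) - ((N + 1 : ℕ) : ℝ)) ^ 2 = 0 := by simp
        rw [h2, add_zero, V, S, Finset.mul_sum, Finset.mul_sum, ← Finset.sum_add_distrib]
        refine Finset.sum_le_sum fun k _ => ?_
        have h3 : (((N + 1 : ℕ) : ℝ) - k) ^ 2 ≤ (1 + η) * ((N : ℝ) - k) ^ 2 + (1 + 1 / η) := by
          have h4 : 0 ≤ (η * ((N : ℝ) - k) - 1) ^ 2 / η := by positivity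
          have h5 : (η * ((N : ℝ) - k) - 1) ^ 2 / η =
              η * ((N : ℝ) - k) ^ 2 - 2 * ((N : ℝ) - k) + 1 / η := by
            field_simp
            ring
          push_cast
          nlinarith
        have h6 := (hb k).le
        rw [pow_zero, one_mul]
        nlinarith
      rw [hc N hN]
      rw [div_le_iff₀ hη0] at hC2
      have h7 := hS N hN
      have h8 : 0 < 1 + 1 / η := by positivity
      have h9 : (1 + 1 / η) * S 0 b N ≤ (1 + 1 / η) * (C0 * b N) :=
        mul_le_mul_of_nonneg_left h7 h8.le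
      have h10 : (1 + η) * V b N ≤ (1 + η) * (C * b N) :=
        mul_le_mul_of_nonneg_left ih (by linarith)
      have h11 : (1 + 1 / η) * C0 * b N ≤ C * η * b N :=
        mul_le_mul_of_nonneg_right hC2 (hb N).le
      have h12 : r = 1 + 2 * η := by rw [hη]; ring
      rw [h12]
      nlinarith

theorem asym_gt (hb1 : ∀ k, 1 ≤ b k) {r : ℝ} (hr : 1 < r) (hr2 : r ≤ 2)
    (hc : ∀ k, M ≤ k → b (k + 1) = r * b k) :
    Tendsto (al b) atTop (𝓝 0) ∧ Tendsto (be b) atTop (𝓝 0) ∧
    (∀ᶠ N : ℕ in atTop, 0 < cc b r N) ∧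
    Tendsto (fun N : ℕ => Real.log (cc b r N)) atTop atTop ∧
    Tendsto (fun N : ℕ => Real.log (cc b r N) / (N + 1)) atTop (𝓝 0) := by
  have hb : ∀ k, 0 < b k := fun k => lt_of_lt_of_le one_pos (hb1 k)
  have hr0 : 0 < r := by linarith
  obtain ⟨C0, hC0, hS⟩ := S0_bound hb hr hc
  obtain ⟨C2, hC2, hV⟩ := V_bound hb hr hc
  have hC0p : 0 < C0 := by linarith
  have hC2p : 0 < C2 := by linarith
  -- geometric growth
  have hgeo : ∀ N, M ≤ N → r ^ N ≤ r ^ M * b N := by
    intro N hN
    induction N, hN using Nat.le_induction with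
    | base =>
        have := hb1 M
        have h2 : 0 < r ^ M := by positivity
        nlinarith
    | succ N hN ih =>
        rw [hc N hN, pow_succ]
        nlinarith
  -- bound for beta
  have hbe : ∀ N, M + 1 ≤ N → be b N ≤ N * C0 * r / b N := by
    intro N hN
    have h1 : S 1 b N ≤ N * (C0 * b N) :=
      (S1_le hb N).trans (mul_le_mul_of_nonneg_left (hS N (by omega)) (by positivity))
    have h2 := Dl_ge_pair hb (N := N) (by omega)
    have h3 : b N = r * b (N - 1) := by
      have := hc (N - 1) (by omega)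
      rwa [Nat.sub_add_cancel (by omega)] at this
    have h4 : b (N - 1) = b N / r := by rw [h3]; field_simp
    have h5 : 0 < b N * b (N - 1) := mul_pos (hb _) (hb _)
    rw [be]
    calc S 1 b N / Dl b N ≤ N * (C0 * b N) / (b N * b (N - 1)) := by
          have := S_nonneg hb 1 N
          have hbNp := hb N
          gcongr
      _ = N * C0 * r / b N := by
          rw [h4]
          have := (hb N).ne'
          field_simp
  have hbN : ∀ N, M ≤ N → 1 / b N ≤ r ^ M / r ^ N := by
    intro N hN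
    rw [div_le_div_iff₀ (hb N) (by positivity), one_mul]
    exact hgeo N hN
  have hkey : ∀ᶠ N : ℕ in atTop, be b N * (N + 1) ≤ 2 * C0 * r * r ^ M * ((N : ℝ) ^ 2 / r ^ N) := by
    filter_upwards [eventually_ge_atTop (M + 1)] with N hN
    have hN1 : (1 : ℝ) ≤ N := by exact_mod_cast (by omega : 1 ≤ N)
    have h1 := hbe N hN
    have h2 := hbN N (by omega)
    calc be b N * (N + 1) ≤ (N * C0 * r / b N) * (2 * N) := by
          have h3 : 0 ≤ N * C0 * r / b N := by
            have := hb N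
            positivity
          have h4 := be_nonneg hb (N := N) (by omega)
          apply mul_le_mul h1 (by linarith) (by positivity) h3
      _ = 2 * C0 * r * N ^ 2 * (1 / b N) := by ring
      _ ≤ 2 * C0 * r * N ^ 2 * (r ^ M / r ^ N) := by gcongr
      _ = _ := by ring
  have hT0 : Tendsto (fun N : ℕ => 2 * C0 * r * r ^ M * ((N : ℝ) ^ 2 / r ^ N)) atTop (𝓝 0) := by
    have := (tendsto_pow_const_div_const_pow_of_one_lt 2 hr).const_mul (2 * C0 * r * r ^ M)
    simpa using this
  have hbet : Tendsto (be b) atTop (𝓝 0) := by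
    refine squeeze_zero' ?_ ?_ hT0
    · filter_upwards [eventually_ge_atTop 1] with N hN using be_nonneg hb hN
    · filter_upwards [hkey, eventually_ge_atTop 1] with N hN hN1
      have h0 := be_nonneg hb hN1
      have : (0 : ℝ) ≤ N := by positivity
      nlinarith
  have halt : Tendsto (al b) atTop (𝓝 0) := by
    refine squeeze_zero' ?_ ?_ hT0
    · filter_upwards [eventually_ge_atTop 1] with N hN using al_nonneg hb hN
    · filter_upwards [hkey, eventually_ge_atTop 1] with N hN hN1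
      have h0 := be_nonneg hb hN1
      have h1 := al_le_be hb hN1
      nlinarith
  have hlow : ∀ N, M + 1 ≤ N → ((N : ℝ) - 1) / (3 * C0 * C2) ≤ cc b r N := by
    intro N hN
    have hN1 : (1 : ℝ) ≤ N := by exact_mod_cast (by omega : 1 ≤ N)
    have h3 : b N = r * b (N - 1) := by
      have := hc (N - 1) (by omega)
      rwa [Nat.sub_add_cancel (by omega)] at this
    have hcast : ((N - 1 : ℕ) : ℝ) = N - 1 := by
      rw [Nat.cast_sub (by omega), Nat.cast_one]
    have h1 : (N - 1) * b (N - 1) ≤ N * S 1 b N - S 2 b N := by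
      have h4 : N * S 1 b N - S 2 b N =
          ∑ k ∈ Finset.range (N + 1), b k * k * ((N : ℝ) - k) := by
        simp only [S, Finset.mul_sum, ← Finset.sum_sub_distrib]
        refine Finset.sum_congr rfl fun k _ => ?_
        ring
      rw [h4]
      have h5 := Finset.single_le_sum (f := fun k : ℕ => b k * k * ((N : ℝ) - k))
        (s := Finset.range (N + 1)) (fun k hk => by
          have : (k : ℝ) ≤ N := by exact_mod_cast Nat.lt_succ_iff.1 (Finset.mem_range.1 hk)
          have h6 := (hb k).le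
          have : 0 ≤ (N : ℝ) - k := by linarith
          positivity) (Finset.mem_range.2 (by omega : N - 1 < N + 1))
      refine le_trans (le_of_eq ?_) h5
      simp only [hcast]
      ring
    have hD : Dl b N ≤ (C0 * b N) * (C2 * b N) := by
      refine (Dl_le_V N).trans ?_
      refine mul_le_mul (hS N (by omega)) (hV N (by omega)) ?_ ?_
      · exact Finset.sum_nonneg fun k _ => mul_nonneg (hb k).le (sq_nonneg _)
      · have := hb N
        positivity
    have hDp := Dl_pos hb (N := N) (by omega)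
    have hgap : (N - 1) * b (N - 1) / ((C0 * b N) * (C2 * b N)) ≤ be b N * N - al b N := by
      rw [gap_eq]
      refine div_le_div₀ ?_ h1 hDp hD
      refine le_trans ?_ h1
      have := hb (N - 1)
      have : 0 ≤ (N : ℝ) - 1 := by linarith
      positivity
    have hbe0 := be_nonneg hb (N := N) (by omega)
    have hgap0 := gap_nonneg hb (N := N) (by omega)
    rw [cc]
    have h7 : r * b N * ((be b N * N - al b N) / 3) ≤
        r * b N * ((be b N * N - al b N) / (1 + r) + be b N / (1 + r) ^ 2) := by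
      have h8 : (be b N * N - al b N) / 3 ≤ (be b N * N - al b N) / (1 + r) :=
        div_le_div_of_nonneg_left hgap0 (by linarith) (by linarith)
      have h9 : 0 ≤ be b N / (1 + r) ^ 2 := by positivity
      have := hb N
      gcongr
      linarith
    refine le_trans ?_ h7
    have h10 : r * b N * (((N - 1) * b (N - 1) / ((C0 * b N) * (C2 * b N))) / 3) =
        ((N : ℝ) - 1) / (3 * C0 * C2) := by
      rw [h3]
      have := (hb (N - 1)).ne'
      field_simp
    rw [← h10]
    have := hb N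
    gcongr
  have hup : ∀ N, M + 1 ≤ N → cc b r N ≤ 4 * C0 * ((N : ℝ) + 1) ^ 2 := by
    intro N hN
    refine (cc_le hb hr.le (by omega)).trans ?_
    have h1 := hbe N hN
    have hbN' := hb N
    calc r * b N * (be b N * (N + 1)) ≤ r * b N * ((N * C0 * r / b N) * (N + 1)) := by gcongr
      _ = r ^ 2 * C0 * (N * (N + 1)) := by field_simp
      _ ≤ 4 * C0 * ((N : ℝ) + 1) ^ 2 := by
          have h2 : r ^ 2 ≤ 4 := by nlinarith
          have h3 : (N : ℝ) * (N + 1) ≤ (N + 1) ^ 2 := by
            have : (0 : ℝ) ≤ N := by positivity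
            nlinarith
          gcongr
  have hpos : ∀ᶠ N : ℕ in atTop, 0 < cc b r N := by
    filter_upwards [eventually_ge_atTop (M + 2)] with N hN
    refine lt_of_lt_of_le ?_ (hlow N (by omega))
    have hN2 : (2 : ℝ) ≤ N := by exact_mod_cast (by omega : 2 ≤ N)
    have : 0 < (N : ℝ) - 1 := by linarith
    positivity
  refine ⟨halt, hbet, hpos, ?_, ?_⟩
  · have hT1 : Tendsto (fun N : ℕ => ((N : ℝ) - 1) / (3 * C0 * C2)) atTop atTop :=
      (tendsto_atTop_add_const_right _ (-1) tendsto_natCast_atTop_atTop).atTop_div_const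
        (by positivity)
    have hcct : Tendsto (fun N : ℕ => cc b r N) atTop atTop :=
      tendsto_atTop_mono' _ (by
        filter_upwards [eventually_ge_atTop (M + 1)] with N hN using hlow N hN) hT1
    exact Real.tendsto_log_atTop.comp hcct
  · refine log_div_tendsto (A := 4 * C0 * C2) (by nlinarith) ?_
    filter_upwards [eventually_ge_atTop (M + 2)] with N hN
    have hN2 : (2 : ℝ) ≤ N := by exact_mod_cast (by omega : 2 ≤ N)
    constructor
    · refine le_trans ?_ (hlow N (by omega))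
      have h1 : ((N : ℝ) + 1)⁻¹ ^ 3 ≤ 1 := by
        apply pow_le_one₀ (by positivity)
        apply inv_le_one_of_one_le₀
        linarith
      calc (4 * C0 * C2)⁻¹ * ((N : ℝ) + 1)⁻¹ ^ 3 ≤ (4 * C0 * C2)⁻¹ * 1 := by gcongr
        _ ≤ (3 * C0 * C2)⁻¹ := by
            rw [mul_one]
            apply inv_anti₀ (by positivity)
            nlinarith [mul_pos hC0p hC2p]
        _ ≤ ((N : ℝ) - 1) / (3 * C0 * C2) := by
            rw [div_eq_mul_inv]
            have : 0 < (3 * C0 * C2)⁻¹ := by positivity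
            nlinarith
    · refine (hup N (by omega)).trans ?_
      have h2 : ((N : ℝ) + 1) ^ 2 ≤ ((N : ℝ) + 1) ^ 3 :=
        pow_le_pow_right₀ (by linarith) (by norm_num)
      have h3 : 4 * C0 ≤ 4 * C0 * C2 := by nlinarith
      exact mul_le_mul h3 h2 (by positivity) (by positivity)

end

end Pool.Agent.V1173.Opa
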