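import Mathlib

/-!
# Weighted Hardy spaces and optimal polynomial approximants: definitions (MP_48c50a)
-/

open Filter Topology Polynomial

namespace Pool.Agent.V1173.Opa

/-- A weight: `ω₀ = 1`, `ω_k > 0` and `ω_k / ω_{k+1} → 1`. -/
structure IsWeight (ω : ℕ → ℝ) : Prop where
  zero : ω 0 = 1
  pos : ∀ k, 0 < ω k
  ratio : Tendsto (fun k => ω k / ω (k + 1)) atTop (𝓝 1)

/-- Membership in `H²_ω`; a function is given by its Taylor series at `0`. -/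
def Mem (ω : ℕ → ℝ) (f : PowerSeries ℂ) : Prop :=
  Summable fun k => ‖PowerSeries.coeff k f‖ ^ 2 * ω k

/-- The squared norm of `H²_ω`. -/
noncomputable def nsq (ω : ℕ → ℝ) (f : PowerSeries ℂ) : ℝ :=
  ∑' k, ‖PowerSeries.coeff k f‖ ^ 2 * ω k

/-- `f` is cyclic in `H²_ω`: its polynomial multiples are dense. -/
def Cyclic (ω : ℕ → ℝ) (f : PowerSeries ℂ) : Prop :=
  Mem ω f ∧ ∀ h, Mem ω h → ∀ ε > 0, ∃ p : ℂ[X],
    Mem ω ((p : PowerSeries ℂ) * f - h) ∧ nsq ω ((p : PowerSeries ℂ) * f - h) < ε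

/-- `q` is the `n`-th optimal polynomial approximant of `1/f` in `H²_ω`: the unique polynomial of
degree at most `n` minimising `‖p f - 1‖_ω` over all polynomials `p` of degree at most `n`. -/
def IsOPA (ω : ℕ → ℝ) (f : PowerSeries ℂ) (n : ℕ) (q : ℂ[X]) : Prop :=
  q.natDegree ≤ n ∧ ∀ p : ℂ[X], p.natDegree ≤ n → p ≠ q →
    nsq ω ((q : PowerSeries ℂ) * f - 1) < nsq ω ((p : PowerSeries ℂ) * f - 1)

/-- The sector with vertex `ζ`, radius `ρ` and directions between `θ₁` and `θ₂`. -/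
def sector (ζ : ℂ) (ρ θ₁ θ₂ : ℝ) : Set ℂ :=
  {z | ∃ r θ : ℝ, 0 < r ∧ r < ρ ∧ θ₁ < θ ∧ θ < θ₂ ∧ z = ζ + r * Complex.exp (θ * Complex.I)}

/-! ## The explicit approximants of `1/(1+z)²` -/

/-- power sums -/
noncomputable def S (i : ℕ) (b : ℕ → ℝ) (N : ℕ) : ℝ :=
  ∑ k ∈ Finset.range (N + 1), (k : ℝ) ^ i * b k

/-- the determinant -/
noncomputable def Dl (b : ℕ → ℝ) (N : ℕ) : ℝ := S 0 b N * S 2 b N - S 1 b N ^ 2

noncomputable def al (b : ℕ → ℝ) (N : ℕ) : ℝ := S 2 b N / Dl b N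

noncomputable def be (b : ℕ → ℝ) (N : ℕ) : ℝ := S 1 b N / Dl b N

/-- coefficients of `G = 1 - q f` -/
noncomputable def gc (b : ℕ → ℝ) (N k : ℕ) : ℝ := b k * (al b N - be b N * k)

/-- the value of `G = 1 - q f` at `z` -/
noncomputable def Gv (b : ℕ → ℝ) (N : ℕ) (z : ℂ) : ℂ :=
  ∑ k ∈ Finset.range (N + 1), ((gc b N k : ℝ) : ℂ) * (-z) ^ k

/-- the polynomial `G` -/
noncomputable def Gp (b : ℕ → ℝ) (N : ℕ) : ℂ[X] :=
  ∑ k ∈ Finset.range (N + 1), C ((gc b N k * (-1) ^ k : ℝ) : ℂ) * X ^ k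

lemma S_congr {i : ℕ} {b b' : ℕ → ℝ} {N : ℕ} (h : ∀ k ≤ N, b k = b' k) : S i b N = S i b' N :=
  Finset.sum_congr rfl fun k hk => by rw [h k (Nat.lt_succ_iff.1 (Finset.mem_range.1 hk))]

lemma Dl_congr {b b' : ℕ → ℝ} {N : ℕ} (h : ∀ k ≤ N, b k = b' k) : Dl b N = Dl b' N := by
  simp only [Dl, S_congr h]

lemma al_congr {b b' : ℕ → ℝ} {N : ℕ} (h : ∀ k ≤ N, b k = b' k) : al b N = al b' N := by
  simp only [al, S_congr h, Dl_congr h]

lemma be_congr {b b' : ℕ → ℝ} {N : ℕ} (h : ∀ k ≤ N, b k = b' k) : be b N = be b' N := by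
  simp only [be, S_congr h, Dl_congr h]

lemma Gv_congr {b b' : ℕ → ℝ} {N : ℕ} (h : ∀ k ≤ N, b k = b' k) (z : ℂ) :
    Gv b N z = Gv b' N z :=
  Finset.sum_congr rfl fun k hk => by
    rw [gc, gc, h k (Nat.lt_succ_iff.1 (Finset.mem_range.1 hk)), al_congr h, be_congr h]

/-- `2 Δ = ∑ ∑ b_i b_j (i - j)²`. -/
lemma two_Dl (b : ℕ → ℝ) (N : ℕ) :
    2 * Dl b N = ∑ i ∈ Finset.range (N + 1), ∑ j ∈ Finset.range (N + 1),
      b i * b j * ((i : ℝ) - j) ^ 2 := by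
  have h : ∀ i j : ℕ, b i * b j * ((i : ℝ) - j) ^ 2 =
      ((i : ℝ) ^ 2 * b i) * ((j : ℝ) ^ 0 * b j) - 2 * (((i : ℝ) ^ 1 * b i) * ((j : ℝ) ^ 1 * b j)) +
        ((i : ℝ) ^ 0 * b i) * ((j : ℝ) ^ 2 * b j) := by
    intro i j; ring
  simp only [h, Finset.sum_add_distrib, Finset.sum_sub_distrib, ← Finset.mul_sum,
    ← Finset.sum_mul]
  simp only [Dl, S]
  ring

lemma Dl_ge_pair {b : ℕ → ℝ} (hb : ∀ k, 0 < b k) {N : ℕ} (hN : 1 ≤ N) :
    b N * b (N - 1) ≤ Dl b N := by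
  have h := two_Dl b N
  have hnn : ∀ i j : ℕ, 0 ≤ b i * b j * ((i : ℝ) - j) ^ 2 := fun i j =>
    mul_nonneg (mul_nonneg (hb i).le (hb j).le) (sq_nonneg _)
  have hcast : ((N - 1 : ℕ) : ℝ) = N - 1 := by
    rw [Nat.cast_sub hN, Nat.cast_one]
  have h1 : b N * b (N - 1) * (((N : ℕ) : ℝ) - ((N - 1 : ℕ) : ℝ)) ^ 2 ≤
      ∑ j ∈ Finset.range (N + 1), b N * b j * ((N : ℝ) - j) ^ 2 :=
    Finset.single_le_sum (f := fun j : ℕ => b N * b j * ((N : ℝ) - j) ^ 2)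
      (fun j _ => hnn N j) (Finset.mem_range.2 (by omega))
  have h2 : b (N - 1) * b N * (((N - 1 : ℕ) : ℝ) - ((N : ℕ) : ℝ)) ^ 2 ≤
      ∑ j ∈ Finset.range (N + 1), b (N - 1) * b j * (((N - 1 : ℕ) : ℝ) - j) ^ 2 :=
    Finset.single_le_sum (f := fun j : ℕ => b (N - 1) * b j * (((N - 1 : ℕ) : ℝ) - j) ^ 2)
      (fun j _ => hnn (N - 1) j) (Finset.mem_range.2 (by omega))
  have h3 : ∑ i ∈ ({N, N - 1} : Finset ℕ), ∑ j ∈ Finset.range (N + 1),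
      b i * b j * ((i : ℝ) - j) ^ 2 ≤ ∑ i ∈ Finset.range (N + 1), ∑ j ∈ Finset.range (N + 1),
      b i * b j * ((i : ℝ) - j) ^ 2 := by
    refine Finset.sum_le_sum_of_subset_of_nonneg ?_ fun i _ _ =>
      Finset.sum_nonneg fun j _ => hnn i j
    intro i hi
    simp only [Finset.mem_insert, Finset.mem_singleton] at hi
    rw [Finset.mem_range]; omega
  rw [Finset.sum_pair (by omega : N ≠ N - 1)] at h3
  rw [hcast] at h1 h2 h3
  have e1 : ((N : ℝ) - (N - 1)) ^ 2 = 1 := by ring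
  have e2 : ((N : ℝ) - 1 - N) ^ 2 = 1 := by ring
  rw [e1] at h1
  rw [e2] at h2
  linarith

lemma Dl_pos {b : ℕ → ℝ} (hb : ∀ k, 0 < b k) {N : ℕ} (hN : 1 ≤ N) : 0 < Dl b N :=
  lt_of_lt_of_le (mul_pos (hb _) (hb _)) (Dl_ge_pair hb hN)

/-- closed form for constant weight -/
lemma Dl_one (N : ℕ) : Dl (fun _ => 1) N = N * (N + 1) ^ 2 * (N + 2) / 12 := by
  have h0 : ∀ N : ℕ, S 0 (fun _ => 1) N = N + 1 := by
    intro N; simp [S]
  have h1 : ∀ N : ℕ, S 1 (fun _ => 1) N = N * (N + 1) / 2 := by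
    intro N
    induction N with
    | zero => simp [S]
    | succ N ih =>
        have : S 1 (fun _ => 1) (N + 1) = S 1 (fun _ => 1) N + (N + 1) := by
          simp [S, Finset.sum_range_succ]
        rw [this, ih]; push_cast; ring
  have h2 : ∀ N : ℕ, S 2 (fun _ => 1) N = N * (N + 1) * (2 * N + 1) / 6 := by
    intro N
    induction N with
    | zero => simp [S]
    | succ N ih =>
        have : S 2 (fun _ => 1) (N + 1) = S 2 (fun _ => 1) N + (N + 1) ^ 2 := by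
          simp [S, Finset.sum_range_succ]
        rw [this, ih]; push_cast; ring
  rw [Dl, h0, h1, h2]
  ring

lemma Dl_ge_one {b : ℕ → ℝ} (hb : ∀ k, 1 ≤ b k) (N : ℕ) :
    (N : ℝ) * (N + 1) ^ 2 * (N + 2) / 12 ≤ Dl b N := by
  rw [← Dl_one]
  have h1 := two_Dl b N
  have h2 := two_Dl (fun _ => 1) N
  have h3 : ∑ i ∈ Finset.range (N + 1), ∑ j ∈ Finset.range (N + 1),
      (fun _ : ℕ => (1 : ℝ)) i * (fun _ : ℕ => (1 : ℝ)) j * ((i : ℝ) - j) ^ 2 ≤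
      ∑ i ∈ Finset.range (N + 1), ∑ j ∈ Finset.range (N + 1), b i * b j * ((i : ℝ) - j) ^ 2 := by
    refine Finset.sum_le_sum fun i _ => Finset.sum_le_sum fun j _ => ?_
    refine mul_le_mul_of_nonneg_right ?_ (sq_nonneg _)
    have hi := hb i
    have hj := hb j
    nlinarith
  linarith

lemma S_nonneg {b : ℕ → ℝ} (hb : ∀ k, 0 < b k) (i N : ℕ) : 0 ≤ S i b N :=
  Finset.sum_nonneg fun k _ => mul_nonneg (by positivity) (hb k).le

lemma S1_le {b : ℕ → ℝ} (hb : ∀ k, 0 < b k) (N : ℕ) : S 1 b N ≤ N * S 0 b N := by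
  rw [S, S, Finset.mul_sum]
  refine Finset.sum_le_sum fun k hk => ?_
  have hk' : (k : ℝ) ≤ N := by exact_mod_cast Nat.lt_succ_iff.1 (Finset.mem_range.1 hk)
  rw [pow_one, pow_zero, one_mul]
  exact mul_le_mul_of_nonneg_right hk' (hb k).le

lemma S2_le {b : ℕ → ℝ} (hb : ∀ k, 0 < b k) (N : ℕ) : S 2 b N ≤ N * S 1 b N := by
  rw [S, S, Finset.mul_sum]
  refine Finset.sum_le_sum fun k hk => ?_
  have hk' : (k : ℝ) ≤ N := by exact_mod_cast Nat.lt_succ_iff.1 (Finset.mem_range.1 hk)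
  have : (k : ℝ) ^ 2 * b k = k * (k * b k) := by ring
  rw [pow_one, this]
  exact mul_le_mul_of_nonneg_right hk' (mul_nonneg (by positivity) (hb k).le)

lemma al_nonneg {b : ℕ → ℝ} (hb : ∀ k, 0 < b k) {N : ℕ} (hN : 1 ≤ N) : 0 ≤ al b N :=
  div_nonneg (S_nonneg hb 2 N) (Dl_pos hb hN).le

lemma be_nonneg {b : ℕ → ℝ} (hb : ∀ k, 0 < b k) {N : ℕ} (hN : 1 ≤ N) : 0 ≤ be b N :=
  div_nonneg (S_nonneg hb 1 N) (Dl_pos hb hN).le

lemma al_le_be {b : ℕ → ℝ} (hb : ∀ k, 0 < b k) {N : ℕ} (hN : 1 ≤ N) :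
    al b N ≤ be b N * N := by
  rw [al, be, div_mul_eq_mul_div]
  refine div_le_div_of_nonneg_right ?_ (Dl_pos hb hN).le
  rw [mul_comm]
  exact S2_le hb N

lemma sum_gc {b : ℕ → ℝ} (hb : ∀ k, 0 < b k) {N : ℕ} (hN : 1 ≤ N) :
    ∑ k ∈ Finset.range (N + 1), gc b N k = 1 := by
  have h : ∑ k ∈ Finset.range (N + 1), gc b N k = al b N * S 0 b N - be b N * S 1 b N := by
    simp only [S, Finset.mul_sum, ← Finset.sum_sub_distrib]
    refine Finset.sum_congr rfl fun k _ => ?_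
    rw [gc]; ring
  rw [h, al, be, div_mul_eq_mul_div, div_mul_eq_mul_div, ← sub_div]
  rw [div_eq_one_iff_eq (Dl_pos hb hN).ne', Dl]
  ring

lemma sum_k_gc {b : ℕ → ℝ} {N : ℕ} :
    ∑ k ∈ Finset.range (N + 1), (k : ℝ) * gc b N k = 0 := by
  have h : ∑ k ∈ Finset.range (N + 1), (k : ℝ) * gc b N k =
      al b N * S 1 b N - be b N * S 2 b N := by
    simp only [S, Finset.mul_sum, ← Finset.sum_sub_distrib]
    refine Finset.sum_congr rfl fun k _ => ?_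
    rw [gc]; ring
  rw [h, al, be, div_mul_eq_mul_div, div_mul_eq_mul_div, ← sub_div, mul_comm, sub_self, zero_div]

end Pool.Agent.V1173.Opa
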