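import Pool.Agent.V1173.Opa.Stage

/-!
# Cyclicity, the recursion, and the main theorem
-/

open Filter Topology Polynomial

namespace Pool.Agent.V1173.Opa

section cyc
variable {ω : ℕ → ℝ}

lemma mem_add (hω : ∀ k, 0 ≤ ω k) {f g : PowerSeries ℂ} (hf : Mem ω f) (hg : Mem ω g) :
    Mem ω (f + g) ∧ nsq ω (f + g) ≤ 2 * nsq ω f + 2 * nsq ω g := by
  have h1 : ∀ k, ‖PowerSeries.coeff k (f + g)‖ ^ 2 * ω k ≤
      2 * (‖PowerSeries.coeff k f‖ ^ 2 * ω k) + 2 * (‖PowerSeries.coeff k g‖ ^ 2 * ω k) := by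
    intro k
    rw [map_add]
    have h2 := norm_add_le (PowerSeries.coeff k f) (PowerSeries.coeff k g)
    have h3 : ‖PowerSeries.coeff k f + PowerSeries.coeff k g‖ ^ 2 ≤
        2 * ‖PowerSeries.coeff k f‖ ^ 2 + 2 * ‖PowerSeries.coeff k g‖ ^ 2 := by
      nlinarith [norm_nonneg (PowerSeries.coeff k f + PowerSeries.coeff k g),
        norm_nonneg (PowerSeries.coeff k f), norm_nonneg (PowerSeries.coeff k g),
        sq_nonneg (‖PowerSeries.coeff k f‖ - ‖PowerSeries.coeff k g‖)]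
    nlinarith [hω k]
  have h4 : Summable fun k => 2 * (‖PowerSeries.coeff k f‖ ^ 2 * ω k) +
      2 * (‖PowerSeries.coeff k g‖ ^ 2 * ω k) := (hf.mul_left 2).add (hg.mul_left 2)
  have h5 : Mem ω (f + g) :=
    Summable.of_nonneg_of_le (fun k => mul_nonneg (sq_nonneg _) (hω k)) h1 h4
  refine ⟨h5, ?_⟩
  rw [nsq, nsq, nsq, ← tsum_mul_left, ← tsum_mul_left, ← (hf.mul_left 2).tsum_add (hg.mul_left 2)]
  exact h5.tsum_le_tsum h1 h4

lemma mem_smul {f : PowerSeries ℂ} (c : ℂ) (hf : Mem ω f) :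
    Mem ω (PowerSeries.C c * f) ∧ nsq ω (PowerSeries.C c * f) = ‖c‖ ^ 2 * nsq ω f := by
  have h1 : ∀ k, ‖PowerSeries.coeff k (PowerSeries.C c * f)‖ ^ 2 * ω k =
      ‖c‖ ^ 2 * (‖PowerSeries.coeff k f‖ ^ 2 * ω k) := by
    intro k
    rw [PowerSeries.coeff_C_mul, norm_mul, mul_pow]
    ring
  constructor
  · rw [Mem]
    simp only [h1]
    exact hf.mul_left _
  · rw [nsq, nsq]
    simp only [h1]
    rw [tsum_mul_left]

lemma mem_X (hω : ∀ k, 0 ≤ ω k) (hm : ∀ k, ω (k + 1) ≤ ω k) {f : PowerSeries ℂ}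
    (hf : Mem ω f) : Mem ω (PowerSeries.X * f) ∧ nsq ω (PowerSeries.X * f) ≤ nsq ω f := by
  have h1 : ∀ k, ‖PowerSeries.coeff (k + 1) (PowerSeries.X * f)‖ ^ 2 * ω (k + 1) ≤
      ‖PowerSeries.coeff k f‖ ^ 2 * ω k := by
    intro k
    rw [PowerSeries.coeff_succ_X_mul]
    exact mul_le_mul_of_nonneg_left (hm k) (sq_nonneg _)
  have h2 : Summable fun k => ‖PowerSeries.coeff (k + 1) (PowerSeries.X * f)‖ ^ 2 * ω (k + 1) :=
    Summable.of_nonneg_of_le (fun k => mul_nonneg (sq_nonneg _) (hω _)) h1 hf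
  have h3 : Mem ω (PowerSeries.X * f) :=
    (summable_nat_add_iff (f := fun k => ‖PowerSeries.coeff k (PowerSeries.X * f)‖ ^ 2 * ω k) 1).1 h2
  refine ⟨h3, ?_⟩
  rw [nsq, h3.tsum_eq_zero_add, PowerSeries.coeff_zero_X_mul]
  simp only [norm_zero, ne_eq, OfNat.ofNat_ne_zero, not_false_eq_true, zero_pow, zero_mul, zero_add]
  exact h2.tsum_le_tsum h1 hf

/-- `h` can be approximated by multiples of `f` -/
def Appr (ω : ℕ → ℝ) (f h : PowerSeries ℂ) : Prop :=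
  ∀ ε > 0, ∃ p : ℂ[X],
    Mem ω ((p : PowerSeries ℂ) * f - h) ∧ nsq ω ((p : PowerSeries ℂ) * f - h) < ε

lemma Appr.add (hω : ∀ k, 0 ≤ ω k) {f g h : PowerSeries ℂ} (hg : Appr ω f g) (hh : Appr ω f h) :
    Appr ω f (g + h) := by
  intro ε hε
  obtain ⟨p, hp1, hp2⟩ := hg (ε / 4) (by positivity)
  obtain ⟨q, hq1, hq2⟩ := hh (ε / 4) (by positivity)
  have h1 : ((p + q : ℂ[X]) : PowerSeries ℂ) * f - (g + h) =
      ((p : PowerSeries ℂ) * f - g) + ((q : PowerSeries ℂ) * f - h) := by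
    push_cast; ring
  obtain ⟨h2, h3⟩ := mem_add hω hp1 hq1
  refine ⟨p + q, by rw [h1]; exact h2, ?_⟩
  rw [h1]
  linarith

lemma nsq_nonneg (hω : ∀ k, 0 ≤ ω k) (f : PowerSeries ℂ) : 0 ≤ nsq ω f :=
  tsum_nonneg fun k => mul_nonneg (sq_nonneg _) (hω k)

lemma Appr.smul {f h : PowerSeries ℂ} (c : ℂ) (hh : Appr ω f h) :
    Appr ω f (PowerSeries.C c * h) := by
  intro ε hε
  obtain ⟨p, hp1, hp2⟩ := hh (ε / (‖c‖ ^ 2 + 1)) (by positivity)
  have h1 : ((C c * p : ℂ[X]) : PowerSeries ℂ) * f - PowerSeries.C c * h =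
      PowerSeries.C c * ((p : PowerSeries ℂ) * f - h) := by
    push_cast; ring
  obtain ⟨h2, h3⟩ := mem_smul c hp1
  refine ⟨C c * p, by rw [h1]; exact h2, ?_⟩
  rw [h1, h3]
  rw [lt_div_iff₀ (by positivity)] at hp2
  by_cases hn : 0 ≤ nsq ω ((p : PowerSeries ℂ) * f - h)
  · nlinarith
  · push Not at hn
    have : ‖c‖ ^ 2 * nsq ω ((p : PowerSeries ℂ) * f - h) ≤ 0 :=
      mul_nonpos_of_nonneg_of_nonpos (sq_nonneg _) hn.le
    linarith

lemma Appr.X (hω : ∀ k, 0 ≤ ω k) (hm : ∀ k, ω (k + 1) ≤ ω k) {f h : PowerSeries ℂ}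
    (hh : Appr ω f h) : Appr ω f (PowerSeries.X * h) := by
  intro ε hε
  obtain ⟨p, hp1, hp2⟩ := hh ε hε
  have h1 : ((Polynomial.X * p : ℂ[X]) : PowerSeries ℂ) * f - PowerSeries.X * h =
      PowerSeries.X * ((p : PowerSeries ℂ) * f - h) := by
    push_cast; ring
  obtain ⟨h2, h3⟩ := mem_X hω hm hp1
  refine ⟨Polynomial.X * p, by rw [h1]; exact h2, ?_⟩
  rw [h1]
  linarith

lemma Appr.poly (hω : ∀ k, 0 ≤ ω k) (hm : ∀ k, ω (k + 1) ≤ ω k) {f : PowerSeries ℂ}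
    (h1 : Appr ω f 1) (P : ℂ[X]) : Appr ω f (P : PowerSeries ℂ) := by
  have hX : ∀ n : ℕ, Appr ω f ((Polynomial.X ^ n : ℂ[X]) : PowerSeries ℂ) := by
    intro n
    induction n with
    | zero => simpa using h1
    | succ n ih =>
        have := Appr.X hω hm ih
        rw [pow_succ']
        push_cast at this ⊢
        exact this
  induction P using Polynomial.induction_on' with
  | add p q hp hq =>
      push_cast
      exact hp.add hω hq
  | monomial n a =>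
      rw [← C_mul_X_pow_eq_monomial]
      have := (hX n).smul a
      push_cast at this ⊢
      exact this

lemma cyclic_of (hω : ∀ k, 0 ≤ ω k) (hm : ∀ k, ω (k + 1) ≤ ω k) {f : PowerSeries ℂ}
    (hf : Mem ω f) (h1 : Appr ω f 1) : Cyclic ω f := by
  refine ⟨hf, fun h hh ε hε => ?_⟩
  -- truncation
  have htail := tendsto_sum_nat_add (fun k => ‖PowerSeries.coeff k h‖ ^ 2 * ω k)
  obtain ⟨K, hK⟩ := (htail.eventually_lt_const (show (0 : ℝ) < ε / 4 by positivity)).exists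
  set P : ℂ[X] := PowerSeries.trunc K h with hP
  have hcoef : ∀ k, PowerSeries.coeff k ((P : PowerSeries ℂ) - h) =
      if k < K then 0 else -PowerSeries.coeff k h := by
    intro k
    rw [map_sub, Polynomial.coeff_coe, hP, PowerSeries.coeff_trunc]
    split_ifs <;> simp
  have hmem : Mem ω ((P : PowerSeries ℂ) - h) := by
    refine Summable.of_nonneg_of_le (fun k => mul_nonneg (sq_nonneg _) (hω k)) (fun k => ?_) hh
    rw [hcoef]
    have := mul_nonneg (sq_nonneg ‖PowerSeries.coeff k h‖) (hω k)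
    split_ifs
    · simpa using this
    · rw [norm_neg]
  have hns : nsq ω ((P : PowerSeries ℂ) - h) < ε / 4 := by
    rw [nsq, ← hmem.sum_add_tsum_nat_add K]
    have h2 : ∑ k ∈ Finset.range K, ‖PowerSeries.coeff k ((P : PowerSeries ℂ) - h)‖ ^ 2 * ω k = 0 :=
      Finset.sum_eq_zero fun k hk => by
        rw [hcoef, if_pos (Finset.mem_range.1 hk)]; simp
    rw [h2, zero_add]
    refine lt_of_eq_of_lt (tsum_congr fun k => ?_) hK
    rw [hcoef, if_neg (by omega), norm_neg]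
  obtain ⟨p, hp1, hp2⟩ := Appr.poly hω hm h1 P (ε / 4) (by positivity)
  have h3 : (p : PowerSeries ℂ) * f - h =
      ((p : PowerSeries ℂ) * f - (P : PowerSeries ℂ)) + ((P : PowerSeries ℂ) - h) := by ring
  obtain ⟨h4, h5⟩ := mem_add hω hp1 hmem
  refine ⟨p, by rw [h3]; exact h4, ?_⟩
  rw [h3]
  linarith

end cyc

/-! ## Recursion -/

/-- a state of the recursion -/
structure St where
  b : ℕ → ℝ
  M : ℕ
  h1 : ∀ k, 1 ≤ b k
  hm : ∀ k, b k ≤ b (k + 1)
  h0 : b 0 = 1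

lemma stage' (j : ℕ) (t : ℚ × ℚ × ℕ) (s : St) : ∃ s' : St, s.M < s'.M ∧
    (∀ k ≤ s.M, s'.b k = s.b k) ∧
    (∀ k, s.M ≤ k → s'.b (k + 1) ≤ (1 + 1 / ((j : ℝ) + 1)) * s'.b k) ∧
    al s'.b s'.M < 1 / ((j : ℝ) + 1) ∧ 2 ≤ s'.M ∧
    (t.1 < t.2.1 → ∃ z ∈ sector 1 (1 / ((t.2.2 : ℝ) + 1)) t.1 t.2.1, Gv s'.b s'.M z = 1) := by
  have hε : (0 : ℝ) < 1 / ((j : ℝ) + 1) := by positivity
  have hε1 : (1 : ℝ) / ((j : ℝ) + 1) ≤ 1 := by
    rw [div_le_one (by positivity)]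
    have : (0 : ℝ) ≤ j := by positivity
    linarith
  by_cases ht : t.1 < t.2.1
  · obtain ⟨b', N, h1, h2, h3, h4, h5, h6, h7, h8⟩ := stage s.h1 s.hm s.M hε hε1
      (θ₁ := t.1) (θ₂ := t.2.1) (ρ := 1 / ((t.2.2 : ℝ) + 1)) (by exact_mod_cast ht)
      (by positivity)
    exact ⟨⟨b', N, h3, h4, by rw [h2 0 (Nat.zero_le _), s.h0]⟩, h1, h2, h5, h6, h7, fun _ => h8⟩
  · obtain ⟨b', N, h1, h2, h3, h4, h5, h6, h7, h8⟩ := stage s.h1 s.hm s.M hε hε1
      (θ₁ := 0) (θ₂ := 1) (ρ := 1) one_pos one_pos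
    exact ⟨⟨b', N, h3, h4, by rw [h2 0 (Nat.zero_le _), s.h0]⟩, h1, h2, h5, h6, h7,
      fun h => absurd h ht⟩

theorem exists_b : ∃ b : ℕ → ℝ, b 0 = 1 ∧ (∀ k, 1 ≤ b k) ∧ (∀ k, b k ≤ b (k + 1)) ∧
    Tendsto (fun k => b (k + 1) / b k) atTop (𝓝 1) ∧
    (∀ ε > 0, ∃ N, 2 ≤ N ∧ al b N < ε) ∧
    (∀ ρ > 0, ∀ θ₁ θ₂ : ℝ, θ₁ < θ₂ → ∃ N, 2 ≤ N ∧ ∃ z ∈ sector 1 ρ θ₁ θ₂, z ≠ -1 ∧
      Gv b N z = 1) := by
  obtain ⟨T, hT⟩ := exists_surjective_nat (ℚ × ℚ × ℕ)
  choose F hF1 hF2 hF3 hF4 hF5 hF6 using fun (j : ℕ) (s : St) => stage' j (T j) s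
  let s0 : St := ⟨fun _ => 1, 0, fun _ => le_rfl, fun _ => le_rfl, rfl⟩
  let st : ℕ → St := fun n => Nat.rec s0 (fun j s => F j s) n
  have hst0 : st 0 = s0 := rfl
  have hst : ∀ j, st (j + 1) = F j (st j) := fun j => rfl
  have hMlt : ∀ j, (st j).M < (st (j + 1)).M := fun j => by rw [hst]; exact hF1 j (st j)
  have hMmono : StrictMono fun j => (st j).M := strictMono_nat_of_lt_succ hMlt
  have hMge : ∀ j, j ≤ (st j).M := fun j => hMmono.id_le j
  have hagree : ∀ i j, i ≤ j → ∀ k ≤ (st i).M, (st j).b k = (st i).b k := by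
    intro i j hij
    induction j, hij using Nat.le_induction with
    | base => intro k _; rfl
    | succ j hij ih =>
        intro k hk
        rw [← ih k hk, hst]
        exact hF2 j (st j) k (hk.trans (hMmono.monotone hij))
  set b : ℕ → ℝ := fun k => (st k).b k with hb
  have hbst : ∀ j k, k ≤ (st j).M → (st j).b k = b k := by
    intro j k hk
    rcases le_total j k with h | h
    · exact (hagree j k h k hk).symm
    · exact hagree k j h k (hMge k)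
  have hb1 : ∀ k, 1 ≤ b k := fun k => (st k).h1 k
  have hbm : ∀ k, b k ≤ b (k + 1) := by
    intro k
    rw [← hbst (k + 1) k ((Nat.le_succ k).trans (hMge (k + 1)))]
    exact (st (k + 1)).hm k
  have hbp : ∀ k, 0 < b k := fun k => lt_of_lt_of_le one_pos (hb1 k)
  have hratio : ∀ J k, (st J).M ≤ k → b (k + 1) ≤ (1 + 1 / ((J : ℝ) + 1)) * b k := by
    intro J k hk
    have claim : ∀ j, J ≤ j → ∀ k, (st J).M ≤ k → k + 1 ≤ (st j).M →
        (st j).b (k + 1) ≤ (1 + 1 / ((J : ℝ) + 1)) * (st j).b k := by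
      intro j hj
      induction j, hj using Nat.le_induction with
      | base => intro k h1 h2; omega
      | succ j hj ih =>
          intro k h1 h2
          by_cases h3 : k + 1 ≤ (st j).M
          · have h4 := ih k h1 h3
            rw [hst, hF2 j (st j) (k + 1) h3, hF2 j (st j) k (by omega)]
            exact h4
          · have h5 := hF3 j (st j) k (by omega)
            rw [hst]
            refine h5.trans ?_
            have h6 : (1 : ℝ) / ((j : ℝ) + 1) ≤ 1 / ((J : ℝ) + 1) := by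
              have : (J : ℝ) ≤ j := by exact_mod_cast hj
              apply one_div_le_one_div_of_le (by positivity)
              linarith
            have h7 := (F j (st j)).h1 k
            nlinarith
    have h8 := claim (max J (k + 1)) (le_max_left _ _) k hk
      ((le_max_right J (k + 1)).trans (hMge _))
    rwa [hbst _ (k + 1) ((le_max_right J (k + 1)).trans (hMge _)),
      hbst _ k (((Nat.le_succ k).trans (le_max_right J (k + 1))).trans (hMge _))] at h8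
  refine ⟨b, (st 0).h0, hb1, hbm, ?_, ?_, ?_⟩
  · rw [Metric.tendsto_atTop]
    intro ε hε
    obtain ⟨J, hJ⟩ := exists_nat_one_div_lt hε
    refine ⟨(st J).M, fun k hk => ?_⟩
    have h1 := hratio J k hk
    have h2 : b (k + 1) / b k ≤ 1 + 1 / ((J : ℝ) + 1) := by
      rwa [div_le_iff₀ (hbp k)]
    have h3 : 1 ≤ b (k + 1) / b k := by
      rw [le_div_iff₀ (hbp k), one_mul]
      exact hbm k
    rw [Real.dist_eq, abs_lt]
    constructor <;> linarith
  · intro ε hε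
    obtain ⟨J, hJ⟩ := exists_nat_one_div_lt hε
    refine ⟨(st (J + 1)).M, ?_, ?_⟩
    · rw [hst]; exact hF5 J (st J)
    · have h1 := hF4 J (st J)
      rw [← hst] at h1
      rw [al_congr (fun k hk => (hbst (J + 1) k hk).symm)]
      linarith
  · intro ρ hρ θ₁ θ₂ hθ
    obtain ⟨p, hp1, hp2⟩ := exists_rat_btwn hθ
    obtain ⟨q, hq1, hq2⟩ := exists_rat_btwn hp2
    obtain ⟨K, hK⟩ := exists_nat_one_div_lt hρ
    obtain ⟨J, hJ⟩ := hT (p, q, K)
    have h1 := hF6 J (st J)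
    rw [hJ] at h1
    obtain ⟨z, ⟨r, θ, hr0, hr1, hθ1, hθ2, hz⟩, hG⟩ := h1 (by exact_mod_cast hq1)
    rw [← hst] at hG
    refine ⟨(st (J + 1)).M, by rw [hst]; exact hF5 J (st J), z,
      ⟨r, θ, hr0, hr1.trans hK, hp1.trans hθ1, hθ2.trans hq2, hz⟩, ?_, ?_⟩
    · intro hcon
      rw [hcon] at hz
      have h2 : ‖(r : ℂ) * Complex.exp (θ * Complex.I)‖ = 2 := by
        have : (r : ℂ) * Complex.exp (θ * Complex.I) = -2 := by linear_combination -hz
        rw [this]; norm_num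
      rw [norm_mul, Complex.norm_exp_ofReal_mul_I, Complex.norm_real, Real.norm_eq_abs,
        abs_of_pos hr0, mul_one] at h2
      have h3 : (1 : ℝ) / ((K : ℝ) + 1) ≤ 1 := by
        rw [div_le_one (by positivity)]
        have : (0 : ℝ) ≤ K := by positivity
        linarith
      simp only at hr1
      linarith
    · rw [← hG]
      exact (Gv_congr (fun k hk => hbst (J + 1) k hk) z).symm

/-- **Main theorem.** -/
theorem main : ∃ ω : ℕ → ℝ, IsWeight ω ∧ (∀ k, ω (k + 1) ≤ ω k) ∧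
    Cyclic ω (((1 + X) ^ 2 : ℂ[X]) : PowerSeries ℂ) ∧
    ∀ ρ > 0, ∀ θ₁ θ₂ : ℝ, θ₁ < θ₂ → ∃ (n : ℕ) (q : ℂ[X]),
      IsOPA ω (((1 + X) ^ 2 : ℂ[X]) : PowerSeries ℂ) n q ∧
      ∃ z ∈ sector 1 ρ θ₁ θ₂, q.eval z = 0 := by
  obtain ⟨b, h0, hb1, hbm, hrat, hal, hsec⟩ := exists_b
  have hbp : ∀ k, 0 < b k := fun k => lt_of_lt_of_le one_pos (hb1 k)
  refine ⟨fun k => (b k)⁻¹, ⟨by simp [h0], fun k => inv_pos.2 (hbp k), ?_⟩, ?_, ?_, ?_⟩
  · refine hrat.congr fun k => ?_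
    rw [inv_div_inv]
  · intro k
    exact inv_anti₀ (hbp k) (hbm k)
  · refine cyclic_of (fun k => (inv_pos.2 (hbp k)).le) (fun k => inv_anti₀ (hbp k) (hbm k))
      (mem_poly _ _) ?_
    intro ε hε
    obtain ⟨N, hN, ha⟩ := hal ε hε
    obtain ⟨q, hq, -⟩ := exists_q hbp (N := N) (by omega)
    refine ⟨q, ?_, ?_⟩
    · have : (q : PowerSeries ℂ) * (((1 + X) ^ 2 : ℂ[X]) : PowerSeries ℂ) - 1 =
          ((q * (1 + X) ^ 2 - 1 : ℂ[X]) : PowerSeries ℂ) := by push_cast; ring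
      rw [this]
      exact mem_poly _ _
    · have := nsq_q hbp (N := N) (by omega) hq
      rw [fpol] at this
      rw [this]
      exact ha
  · intro ρ hρ θ₁ θ₂ hθ
    obtain ⟨N, hN, z, hz, hz1, hG⟩ := hsec ρ hρ θ₁ θ₂ hθ
    obtain ⟨q, hq, hqd⟩ := exists_q hbp (N := N) (by omega)
    refine ⟨N - 2, q, isOPA hbp hN hq hqd, z, hz, ?_⟩
    have h1 := congrArg (fun P : ℂ[X] => P.eval z) hq
    simp only [eval_mul, eval_sub, eval_one, Gp_eval, hG, sub_self] at h1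
    rcases mul_eq_zero.1 h1 with h2 | h2
    · exact h2
    · exfalso
      rw [fpol, eval_pow, eval_add, eval_one, eval_X] at h2
      have h3 : 1 + z = 0 := by simpa using h2
      exact hz1 (by linear_combination h3)

end Pool.Agent.V1173.Opa
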