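import Pool.Agent.V1173.Opa.Asym

/-!
# Zeros in a prescribed direction, and the inductive stage
-/

open Filter Topology

namespace Pool.Agent.V1173.Opa

lemma Gv_differentiable (b : ℕ → ℝ) (N : ℕ) : Differentiable ℂ (Gv b N) := by
  have : Gv b N = fun z => ∑ k ∈ Finset.range (N + 1), ((gc b N k : ℝ) : ℂ) * (-z) ^ k := rfl
  rw [this]
  fun_prop

lemma exp_half_le : Real.exp (1 / 2) ≤ 2 := by
  have h1 : Real.exp (1 / 2) * Real.exp (1 / 2) = Real.exp 1 := by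
    rw [← Real.exp_add]; norm_num
  have h2 := Real.exp_one_lt_d9
  by_contra h
  push Not at h
  nlinarith

/-- The core estimate for one `N`. -/
lemma core {b : ℕ → ℝ} {N : ℕ} {c C ρ δ θ θ₁ θ₂ L E : ℝ} (hN : Even (N + 1))
    (happ : ∀ z : ℂ, ‖z - 1‖ ≤ 1 / 2 → ‖Gv b N z - (-z) ^ (N + 1) * (c : ℂ)‖ ≤
        ‖z‖ ^ (N + 1) * c * (8 * ‖z - 1‖) + C)
    (hc : 0 < c) (hC : C ≤ 1 / 64) (hLc : L * Real.cos θ = -Real.log c)
    (hL8 : 8 ≤ L) (hLδ : 16 / δ ≤ L) (hδ : 0 < δ) (_hρ : 0 < ρ)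
    (hE : (L + 8) / ((N : ℝ) + 1) = E) (hE1 : E ≤ 1 / 2048) (hE2 : E ≤ δ / 8) (hE3 : E ≤ ρ / 4)
    (hdir : ∀ u : ℂ, ‖u - Complex.exp (θ * Complex.I)‖ < δ →
      ∃ s θ' : ℝ, 0 < s ∧ θ₁ < θ' ∧ θ' < θ₂ ∧ u = s * Complex.exp (θ' * Complex.I)) :
    ∃ z ∈ sector 1 ρ θ₁ θ₂, Gv b N z = 1 := by
  have hL0 : 0 < L := by linarith
  have hNp : (0 : ℝ) < (N : ℝ) + 1 := by positivity
  have hNc : ((N : ℂ) + 1) ≠ 0 := by exact_mod_cast hNp.ne'
  have hE0 : 0 < E := by rw [← hE]; positivity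
  set m : ℤ := ⌊L * Real.sin θ / (2 * Real.pi)⌋ with hm
  set w : ℂ := ((L * Real.cos θ : ℝ) : ℂ) + (2 * Real.pi * m : ℝ) * Complex.I with hw
  have hpi := Real.pi_pos
  have hwL : ‖w - L * Complex.exp (θ * Complex.I)‖ ≤ 7 := by
    have h1 : w - L * Complex.exp (θ * Complex.I) =
        ((2 * Real.pi * (m - L * Real.sin θ / (2 * Real.pi)) : ℝ) : ℂ) * Complex.I := by
      rw [hw, Complex.exp_mul_I, ← Complex.ofReal_cos, ← Complex.ofReal_sin]
      have : (2 * Real.pi * (m - L * Real.sin θ / (2 * Real.pi)) : ℝ) =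
          2 * Real.pi * m - L * Real.sin θ := by field_simp
      rw [this]
      push_cast
      ring
    rw [h1, norm_mul, Complex.norm_I, mul_one, Complex.norm_real, Real.norm_eq_abs, abs_mul,
      abs_of_pos (by positivity)]
    have h2 : |(m : ℝ) - L * Real.sin θ / (2 * Real.pi)| ≤ 1 := by
      rw [abs_le]
      constructor
      · linarith [Int.lt_floor_add_one (L * Real.sin θ / (2 * Real.pi))]
      · linarith [Int.floor_le (L * Real.sin θ / (2 * Real.pi))]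
    have h3 := Real.pi_lt_d2
    nlinarith [abs_nonneg ((m : ℝ) - L * Real.sin θ / (2 * Real.pi))]
  have hexpw : Complex.exp w * (c : ℂ) = 1 := by
    rw [hw, Complex.exp_add, hLc]
    have h1 : Complex.exp ((2 * Real.pi * m : ℝ) * Complex.I) = 1 := by
      rw [Complex.exp_eq_one_iff]
      exact ⟨m, by push_cast; ring⟩
    rw [h1, mul_one, ← Complex.ofReal_exp, Real.exp_neg, Real.exp_log hc, ← Complex.ofReal_mul,
      inv_mul_cancel₀ hc.ne', Complex.ofReal_one]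
  set A : ℂ → ℂ := fun v => (w + v) / ((N : ℂ) + 1) with hA
  have hAn : ∀ v : ℂ, ‖v‖ ≤ 1 / 2 → ‖w + v‖ ≤ L + 8 := by
    intro v hv
    have h1 : w + v = (w - L * Complex.exp (θ * Complex.I)) + L * Complex.exp (θ * Complex.I) + v := by
      ring
    rw [h1]
    refine (norm_add_le _ _).trans ?_
    have h2 := norm_add_le (w - L * Complex.exp (θ * Complex.I)) (L * Complex.exp (θ * Complex.I))
    have h3 : ‖(L : ℂ) * Complex.exp (θ * Complex.I)‖ = L := by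
      rw [norm_mul, Complex.norm_exp_ofReal_mul_I, Complex.norm_real, Real.norm_eq_abs,
        abs_of_pos hL0, mul_one]
    linarith
  have hAE : ∀ v : ℂ, ‖v‖ ≤ 1 / 2 → ‖A v‖ ≤ E := by
    intro v hv
    rw [hA]
    simp only
    rw [norm_div, ← hE]
    have h1 : ‖(N : ℂ) + 1‖ = (N : ℝ) + 1 := by
      have : ((N : ℂ) + 1) = (((N : ℝ) + 1 : ℝ) : ℂ) := by push_cast; ring
      rw [this, Complex.norm_real, Real.norm_eq_abs, abs_of_pos hNp]
    rw [h1]
    exact div_le_div_of_nonneg_right (hAn v hv) hNp.le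
  have hz1 : ∀ v : ℂ, ‖v‖ ≤ 1 / 2 → ‖Complex.exp (A v) - 1‖ ≤ 2 * E := by
    intro v hv
    refine (Complex.norm_exp_sub_one_le ((hAE v hv).trans (by linarith))).trans ?_
    linarith [hAE v hv]
  have hpow : ∀ v : ℂ, Complex.exp (A v) ^ (N + 1) = Complex.exp w * Complex.exp v := by
    intro v
    rw [← Complex.exp_nat_mul, ← Complex.exp_add]
    congr 1
    rw [hA]
    simp only
    push_cast
    field_simp
  obtain ⟨v, hv, hv1⟩ := exists_one (F := fun v => Gv b N (Complex.exp (A v))) (by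
      have h1 : Differentiable ℂ A := by rw [hA]; fun_prop
      exact (Gv_differentiable b N).comp (h1.cexp)) (by
    intro v hv
    have h1 := happ (Complex.exp (A v)) ((hz1 v hv).trans (by linarith))
    have h2 : (-Complex.exp (A v)) ^ (N + 1) * (c : ℂ) = Complex.exp v := by
      rw [hN.neg_pow, hpow]
      linear_combination (Complex.exp v) * hexpw
    have h3 : ‖Complex.exp (A v)‖ ^ (N + 1) * c = ‖Complex.exp v‖ := by
      rw [← h2, norm_mul, norm_pow, norm_neg, Complex.norm_real, Real.norm_eq_abs,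
        abs_of_pos hc]
    rw [h2, h3] at h1
    have h4 : ‖Complex.exp v‖ ≤ 2 := by
      rw [Complex.norm_exp]
      refine le_trans ?_ exp_half_le
      exact Real.exp_le_exp.2 (((le_abs_self _).trans (Complex.abs_re_le_norm v)).trans hv)
    have h5 := hz1 v hv
    have h6 : ‖Complex.exp v‖ * (8 * ‖Complex.exp (A v) - 1‖) ≤ 2 * (8 * (2 * E)) := by
      gcongr
    linarith)
  have hA1 := hAE v hv
  have hL0c : (L : ℂ) ≠ 0 := by exact_mod_cast hL0.ne'
  set u : ℂ := (Complex.exp (A v) - 1) * ((N : ℂ) + 1) / L with hu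
  have hNn : ‖(N : ℂ) + 1‖ = (N : ℝ) + 1 := by
    have : ((N : ℂ) + 1) = (((N : ℝ) + 1 : ℝ) : ℂ) := by push_cast; ring
    rw [this, Complex.norm_real, Real.norm_eq_abs, abs_of_pos hNp]
  have hLn : ‖(L : ℂ)‖ = L := by rw [Complex.norm_real, Real.norm_eq_abs, abs_of_pos hL0]
  have hudist : ‖u - Complex.exp (θ * Complex.I)‖ < δ := by
    have h1 : u - Complex.exp (θ * Complex.I) =
        (Complex.exp (A v) - 1 - A v) * ((N : ℂ) + 1) / L +
          ((w - L * Complex.exp (θ * Complex.I)) + v) / L := by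
      rw [hu]
      have : A v * ((N : ℂ) + 1) = w + v := by rw [hA]; field_simp
      field_simp
      linear_combination this
    rw [h1]
    refine (norm_add_le _ _).trans_lt ?_
    rw [norm_div, norm_mul, hNn, norm_div, hLn]
    have h2 : ‖Complex.exp (A v) - 1 - A v‖ ≤ ‖A v‖ ^ 2 :=
      Complex.norm_exp_sub_one_sub_id_le (by linarith)
    have h3 : E * ((N : ℝ) + 1) = L + 8 := by rw [← hE]; field_simp
    have h4 : ‖Complex.exp (A v) - 1 - A v‖ * ((N : ℝ) + 1) / L ≤ 2 * E := by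
      rw [div_le_iff₀ hL0]
      calc ‖Complex.exp (A v) - 1 - A v‖ * ((N : ℝ) + 1) ≤ E ^ 2 * ((N : ℝ) + 1) := by
            refine mul_le_mul_of_nonneg_right (h2.trans ?_) hNp.le
            exact pow_le_pow_left₀ (norm_nonneg _) hA1 2
        _ = E * (L + 8) := by rw [← h3]; ring
        _ ≤ 2 * E * L := by nlinarith
    have h5 : ‖w - L * Complex.exp (θ * Complex.I) + v‖ / L ≤ δ / 2 := by
      rw [div_le_iff₀ hL0]
      have h6 := norm_add_le (w - L * Complex.exp (θ * Complex.I)) v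
      have h7 : 16 ≤ L * δ := by rwa [div_le_iff₀ hδ] at hLδ
      linarith
    linarith
  obtain ⟨s, θ', hs, h1, h2, hus⟩ := hdir u hudist
  have hzeq : Complex.exp (A v) = 1 + ((s * L / ((N : ℝ) + 1) : ℝ) : ℂ) *
      Complex.exp (θ' * Complex.I) := by
    have h3 : Complex.exp (A v) - 1 = u * L / ((N : ℂ) + 1) := by
      rw [hu]; field_simp
    have h4 : Complex.exp (A v) = 1 + u * L / ((N : ℂ) + 1) := by rw [← h3]; ring
    rw [h4, hus]
    push_cast
    ring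
  have hrp : 0 < s * L / ((N : ℝ) + 1) := by positivity
  refine ⟨Complex.exp (A v), ⟨s * L / ((N : ℝ) + 1), θ', hrp, ?_, h1, h2, hzeq⟩, hv1⟩
  have h5 : ‖Complex.exp (A v) - 1‖ = s * L / ((N : ℝ) + 1) := by
    rw [hzeq, add_sub_cancel_left, norm_mul, Complex.norm_exp_ofReal_mul_I, mul_one,
      Complex.norm_real, Real.norm_eq_abs, abs_of_pos hrp]
  rw [← h5]
  have := hz1 v hv
  linarith

theorem dir_zero {b : ℕ → ℝ} (hb : ∀ k, 0 < b k) {M : ℕ} {r : ℝ} (hr1 : 1 ≤ r) (hr2 : r ≤ 2)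
    (hc : ∀ k, M ≤ k → b (k + 1) = r * b k)
    (hal : Tendsto (al b) atTop (𝓝 0)) (hbe : Tendsto (be b) atTop (𝓝 0))
    (hpos : ∀ᶠ N : ℕ in atTop, 0 < cc b r N)
    (hdiv : Tendsto (fun N : ℕ => Real.log (cc b r N) / (N + 1)) atTop (𝓝 0))
    {θ : ℝ} (hcos : Real.cos θ ≠ 0)
    (hL : Tendsto (fun N : ℕ => -Real.log (cc b r N) / Real.cos θ) atTop atTop)
    {θ₁ θ₂ ρ : ℝ} (h1 : θ₁ < θ) (h2 : θ < θ₂) (hρ : 0 < ρ) :
    ∀ᶠ N : ℕ in atTop, Even (N + 1) → ∃ z ∈ sector 1 ρ θ₁ θ₂, Gv b N z = 1 := by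
  obtain ⟨δ, hδ, hdir⟩ := exists_dir h1 h2
  obtain ⟨C, hC0, happ⟩ := Gv_approx hb hr1 hr2 hc
  have hE : Tendsto (fun N : ℕ => (-Real.log (cc b r N) / Real.cos θ + 8) / ((N : ℝ) + 1))
      atTop (𝓝 0) := by
    have hN1t : Tendsto (fun N : ℕ => ((N : ℝ) + 1)) atTop atTop :=
      tendsto_atTop_add_const_right _ _ tendsto_natCast_atTop_atTop
    have h3 : Tendsto (fun N : ℕ => (8 : ℝ) / ((N : ℝ) + 1)) atTop (𝓝 0) :=
      tendsto_const_nhds.div_atTop hN1t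
    have h4 := (hdiv.const_mul (-(1 / Real.cos θ))).add h3
    rw [mul_zero, add_zero] at h4
    refine h4.congr fun N => ?_
    ring
  have hCt : Tendsto (fun N : ℕ => C * (al b N + be b N)) atTop (𝓝 0) := by
    have := (hal.add hbe).const_mul C
    simpa using this
  set κ : ℝ := min (1 / 2048) (min (δ / 8) (ρ / 4)) with hκ
  have hκ0 : 0 < κ := by
    refine lt_min (by norm_num) (lt_min (by positivity) (by positivity))
  filter_upwards [hpos, hL.eventually_ge_atTop 8, hL.eventually_ge_atTop (16 / δ),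
    hE.eventually_le_const hκ0, hCt.eventually_le_const (show (0 : ℝ) < 1 / 64 by norm_num),
    eventually_ge_atTop M, eventually_ge_atTop 1] with N e1 e2 e3 e4 e5 e6 e7 hev
  refine core (c := cc b r N) (C := C * (al b N + be b N)) (L := -Real.log (cc b r N) / Real.cos θ)
    (E := (-Real.log (cc b r N) / Real.cos θ + 8) / ((N : ℝ) + 1)) hev
    (fun z hz => happ N e6 e7 z hz) e1 e5 ?_ e2 e3 hδ hρ rfl
    (e4.trans (min_le_left _ _)) (e4.trans ((min_le_right _ _).trans (min_le_left _ _)))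
    (e4.trans ((min_le_right _ _).trans (min_le_right _ _))) hdir
  field_simp

/-- geometric continuation -/
noncomputable def ext (b : ℕ → ℝ) (M : ℕ) (r : ℝ) (k : ℕ) : ℝ :=
  if k ≤ M then b k else b M * r ^ (k - M)

lemma ext_le {b : ℕ → ℝ} {M : ℕ} {r : ℝ} {k : ℕ} (hk : k ≤ M) : ext b M r k = b k := if_pos hk

lemma ext_ge {b : ℕ → ℝ} {M : ℕ} {r : ℝ} {k : ℕ} (hk : M ≤ k) :
    ext b M r k = b M * r ^ (k - M) := by
  rw [ext]
  split_ifs with h
  · have : k = M := le_antisymm h hk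
    subst this
    simp
  · rfl

lemma ext_succ {b : ℕ → ℝ} {M : ℕ} {r : ℝ} {k : ℕ} (hk : M ≤ k) :
    ext b M r (k + 1) = r * ext b M r k := by
  rw [ext_ge hk, ext_ge (by omega : M ≤ k + 1), Nat.succ_sub hk, pow_succ]
  ring

lemma ext_one_le {b : ℕ → ℝ} (hb1 : ∀ k, 1 ≤ b k) {M : ℕ} {r : ℝ} (hr : 1 ≤ r) (k : ℕ) :
    1 ≤ ext b M r k := by
  rcases le_total k M with h | h
  · rw [ext_le h]; exact hb1 k
  · rw [ext_ge h]
    have h1 := hb1 M
    have h2 : 1 ≤ r ^ (k - M) := one_le_pow₀ hr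
    nlinarith

lemma ext_mono {b : ℕ → ℝ} (hb1 : ∀ k, 1 ≤ b k) (hm : ∀ k, b k ≤ b (k + 1)) {M : ℕ} {r : ℝ}
    (hr : 1 ≤ r) (k : ℕ) : ext b M r k ≤ ext b M r (k + 1) := by
  rcases lt_or_ge k M with h | h
  · rw [ext_le h.le, ext_le (by omega : k + 1 ≤ M)]
    exact hm k
  · rw [ext_succ h]
    have := ext_one_le hb1 hr (M := M) k
    nlinarith

/-- a direction with nonzero cosine -/
lemma exists_cos {θ₁ θ₂ : ℝ} (h : θ₁ < θ₂) : ∃ θ, θ₁ < θ ∧ θ < θ₂ ∧ Real.cos θ ≠ 0 := by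
  set t : ℝ := min ((θ₂ - θ₁) / 3) 1 with ht
  have ht0 : 0 < t := lt_min (by linarith) one_pos
  have ht1 : t ≤ (θ₂ - θ₁) / 3 := min_le_left _ _
  have ht2 : t ≤ 1 := min_le_right _ _
  by_cases hc : Real.cos (θ₁ + t) = 0
  · refine ⟨θ₁ + 2 * t, by linarith, by linarith, fun hc2 => ?_⟩
    have h1 : Real.sin t = 0 := by
      have : t = (θ₁ + 2 * t) - (θ₁ + t) := by ring
      rw [this, Real.sin_sub, hc, hc2]
      ring
    have h2 : 0 < Real.sin t := Real.sin_pos_of_pos_of_lt_pi ht0 (by linarith [Real.pi_gt_three])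
    linarith
  · exact ⟨θ₁ + t, by linarith, by linarith, hc⟩

/-- The inductive stage. -/
theorem stage {b : ℕ → ℝ} (hb1 : ∀ k, 1 ≤ b k) (hm : ∀ k, b k ≤ b (k + 1)) (M : ℕ) {ε : ℝ}
    (hε : 0 < ε) (hε1 : ε ≤ 1) {θ₁ θ₂ ρ : ℝ} (hθ : θ₁ < θ₂) (hρ : 0 < ρ) :
    ∃ (b' : ℕ → ℝ) (N : ℕ), M < N ∧ (∀ k ≤ M, b' k = b k) ∧ (∀ k, 1 ≤ b' k) ∧
      (∀ k, b' k ≤ b' (k + 1)) ∧ (∀ k, M ≤ k → b' (k + 1) ≤ (1 + ε) * b' k) ∧ al b' N < ε ∧
      2 ≤ N ∧ ∃ z ∈ sector 1 ρ θ₁ θ₂, Gv b' N z = 1 := by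
  obtain ⟨θ, h1, h2, hcos⟩ := exists_cos hθ
  -- a uniform formulation
  have key : ∃ r : ℝ, 1 ≤ r ∧ r ≤ 1 + ε ∧ Tendsto (al (ext b M r)) atTop (𝓝 0) ∧
      ∀ᶠ N : ℕ in atTop, Even (N + 1) → ∃ z ∈ sector 1 ρ θ₁ θ₂, Gv (ext b M r) N z = 1 := by
    rcases lt_or_gt_of_ne hcos with hneg | hpos
    · refine ⟨1 + ε, by linarith, le_rfl, ?_⟩
      obtain ⟨a1, a2, a3, a4, a5⟩ := asym_gt (b := ext b M (1 + ε)) (M := M)
        (ext_one_le hb1 (by linarith)) (by linarith) (by linarith) (fun k hk => ext_succ hk)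
      refine ⟨a1, dir_zero (M := M)
        (fun k => lt_of_lt_of_le one_pos (ext_one_le hb1 (by linarith) k))
        (by linarith) (by linarith) (fun k hk => ext_succ hk) a1 a2 a3 a5 hcos ?_ h1 h2 hρ⟩
      have h3 : Tendsto (fun N : ℕ => Real.log (cc (ext b M (1 + ε)) (1 + ε) N) *
          (-(Real.cos θ)⁻¹)) atTop atTop := by
        refine a4.atTop_mul_const ?_
        rw [neg_pos]
        exact inv_lt_zero.2 hneg
      refine h3.congr fun N => ?_
      ring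
    · refine ⟨1, le_rfl, by linarith, ?_⟩
      obtain ⟨a1, a2, a3, a4, a5⟩ := asym_one (b := ext b M 1) (M := M)
        (ext_one_le hb1 le_rfl) (ext_mono hb1 hm le_rfl) (fun k hk => ext_succ hk)
      refine ⟨a1, dir_zero (M := M)
        (fun k => lt_of_lt_of_le one_pos (ext_one_le hb1 le_rfl k))
        le_rfl (by norm_num) (fun k hk => ext_succ hk) a1 a2 a3 a5 hcos ?_ h1 h2 hρ⟩
      have h3 : Tendsto (fun N : ℕ => -Real.log (cc (ext b M 1) 1 N) * (Real.cos θ)⁻¹)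
          atTop atTop := by
        refine (tendsto_neg_atBot_atTop.comp a4).atTop_mul_const ?_
        exact inv_pos.2 hpos
      refine h3.congr fun N => ?_
      ring
  obtain ⟨r, hr1, hr2, hal, hev⟩ := key
  obtain ⟨N0, hN0⟩ := eventually_atTop.1 (hev.and (hal.eventually_lt_const hε))
  set N := 2 * (N0 + M + 1) + 1 with hN
  obtain ⟨hz, ha⟩ := hN0 N (by omega)
  refine ⟨ext b M r, N, by omega, fun k hk => ext_le hk, ext_one_le hb1 hr1, ext_mono hb1 hm hr1,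
    fun k hk => ?_, ha, by omega, hz ⟨N0 + M + 2, by omega⟩⟩
  rw [ext_succ hk]
  have := ext_one_le hb1 hr1 (M := M) k
  nlinarith

end Pool.Agent.V1173.Opa
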