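import Pool.Agent.V1173.Opa.Alg

/-!
# Zero finding and the closed form
-/

open Filter Topology Metric

namespace Pool.Agent.V1173.Opa

/-- A function uniformly close to `exp` on a small disc takes the value `1` there. -/
lemma exists_one {F : ℂ → ℂ} (hF : Differentiable ℂ F)
    (h : ∀ v : ℂ, ‖v‖ ≤ 1 / 2 → ‖F v - Complex.exp v‖ ≤ 1 / 32) :
    ∃ v : ℂ, ‖v‖ ≤ 1 / 2 ∧ F v = 1 := by
  have h0 : ‖F 0 - 1‖ ≤ 1 / 32 := by
    have := h 0 (by simp)
    rwa [Complex.exp_zero] at this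
  have hs : ∀ z ∈ sphere (0 : ℂ) (1 / 2), (3 / 16 : ℝ) ≤ ‖F z - F 0‖ := by
    intro z hz
    rw [mem_sphere_zero_iff_norm] at hz
    have h1 := h z hz.le
    have h2 : ‖Complex.exp z - 1 - z‖ ≤ ‖z‖ ^ 2 :=
      Complex.norm_exp_sub_one_sub_id_le (by rw [hz]; norm_num)
    have h3 : z = -(Complex.exp z - 1 - z) + -(F z - Complex.exp z) + (F 0 - 1) + (F z - F 0) := by
      ring
    have h4 : ‖z‖ ≤ ‖Complex.exp z - 1 - z‖ + ‖F z - Complex.exp z‖ + ‖F 0 - 1‖ +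
        ‖F z - F 0‖ := by
      conv_lhs => rw [h3]
      refine (norm_add_le _ _).trans (add_le_add_left ?_ _)
      refine (norm_add_le _ _).trans (add_le_add_left ?_ _)
      refine (norm_add_le _ _).trans ?_
      rw [norm_neg, norm_neg]
    rw [hz] at h4 h2
    norm_num at h2
    linarith
  have hfreq : ∃ᶠ z in 𝓝 (0 : ℂ), F z ≠ F 0 := by
    intro hcon
    simp only [not_not] at hcon
    have hA : AnalyticOnNhd ℂ F Set.univ := fun z _ => hF.analyticAt z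
    have hB : AnalyticOnNhd ℂ (fun _ : ℂ => F 0) Set.univ := fun z _ => analyticAt_const
    have := hA.eqOn_of_preconnected_of_eventuallyEq hB isPreconnected_univ (Set.mem_univ 0) hcon
    have h1 := hs (1 / 2) (by rw [mem_sphere_zero_iff_norm]; norm_num)
    have h2 : F (1 / 2) = F 0 := this (Set.mem_univ _)
    rw [h2, sub_self, norm_zero] at h1
    norm_num at h1
  have hmain := DiffContOnCl.ball_subset_image_closedBall (f := F) (z₀ := 0) (r := 1 / 2)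
    (ε := 3 / 16) hF.diffContOnCl (by norm_num) hs hfreq
  have h1 : (1 : ℂ) ∈ ball (F 0) (3 / 16 / 2) := by
    rw [mem_ball, dist_comm, dist_eq_norm]
    linarith
  obtain ⟨v, hv, hv1⟩ := hmain h1
  exact ⟨v, by rwa [mem_closedBall_zero_iff] at hv, hv1⟩

/-- points close to `e^{iθ}` have direction close to `θ` -/
lemma exists_dir {θ θ₁ θ₂ : ℝ} (h1 : θ₁ < θ) (h2 : θ < θ₂) :
    ∃ δ > 0, ∀ u : ℂ, ‖u - Complex.exp (θ * Complex.I)‖ < δ →
      ∃ s θ' : ℝ, 0 < s ∧ θ₁ < θ' ∧ θ' < θ₂ ∧ u = s * Complex.exp (θ' * Complex.I) := by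
  have hc : ContinuousAt Complex.arg 1 :=
    Complex.continuousAt_arg Complex.one_mem_slitPlane
  have hη : 0 < min (θ - θ₁) (θ₂ - θ) := lt_min (by linarith) (by linarith)
  obtain ⟨δ, hδ, hd⟩ := Metric.continuousAt_iff.1 hc _ hη
  refine ⟨min δ 1, lt_min hδ one_pos, fun u hu => ?_⟩
  set e : ℂ := Complex.exp (θ * Complex.I) with he
  have hen : ‖e‖ = 1 := by rw [he, Complex.norm_exp_ofReal_mul_I]
  have hene : e ≠ 0 := Complex.exp_ne_zero _
  set t : ℂ := u / e with ht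
  have ht1 : ‖t - 1‖ < min δ 1 := by
    have : t - 1 = (u - e) / e := by rw [ht]; field_simp
    rw [this, norm_div, hen, div_one]
    exact hu
  have h3 : |Complex.arg t| < min (θ - θ₁) (θ₂ - θ) := by
    have := hd (x := t) (by rw [dist_eq_norm]; exact ht1.trans_le (min_le_left _ _))
    rwa [Complex.arg_one, dist_zero_right, Real.norm_eq_abs] at this
  have ht0 : t ≠ 0 := by
    intro h
    rw [h] at ht1
    have := ht1.trans_le (min_le_right _ _)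
    simp at this
  rw [abs_lt] at h3
  refine ⟨‖t‖, θ + Complex.arg t, norm_pos_iff.2 ht0, ?_, ?_, ?_⟩
  · have := min_le_left (θ - θ₁) (θ₂ - θ)
    linarith [h3.1]
  · have := min_le_right (θ - θ₁) (θ₂ - θ)
    linarith [h3.2]
  · have h4 : u = t * e := by rw [ht]; field_simp
    rw [h4]
    conv_lhs => rw [← Complex.norm_mul_exp_arg_mul_I t]
    rw [he, mul_assoc, ← Complex.exp_add]
    congr 2
    push_cast
    ring

/-! ## Closed form -/

/-- the constant `c_N` -/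
noncomputable def cc (b : ℕ → ℝ) (r : ℝ) (N : ℕ) : ℝ :=
  r * b N * ((be b N * N - al b N) / (1 + r) + be b N / (1 + r) ^ 2)

/-- the auxiliary linear function -/
noncomputable def Qf (a e : ℝ) (u : ℂ) (k : ℕ) : ℂ :=
  ((e * (k - 1) - a : ℝ) : ℂ) / u + (e : ℂ) / u ^ 2

lemma Qf_step (a e r : ℝ) {z u : ℂ} (hu : u = 1 + r * z) (hu0 : u ≠ 0) (k : ℕ) :
    ((r : ℂ) * (-z)) * Qf a e u (k + 1) - Qf a e u k = ((a - e * k : ℝ) : ℂ) := by
  have h1 : (r : ℂ) * (-z) = 1 - u := by rw [hu]; ring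
  rw [h1, Qf, Qf]
  push_cast
  field_simp
  ring

lemma sum_tail {b : ℕ → ℝ} {M : ℕ} {r : ℝ} (hb : ∀ k, M ≤ k → b (k + 1) = r * b k) (a e : ℝ)
    {z u : ℂ} (hu : u = 1 + r * z) (hu0 : u ≠ 0) (N : ℕ) (hN : M ≤ N) :
    ∑ k ∈ Finset.Ico M (N + 1), ((b k * (a - e * k) : ℝ) : ℂ) * (-z) ^ k =
      ((r * b N : ℝ) : ℂ) * (-z) ^ (N + 1) * Qf a e u (N + 1) -
        (b M : ℂ) * (-z) ^ M * Qf a e u M := by
  induction N, hN using Nat.le_induction with
  | base =>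
      rw [Nat.Ico_succ_singleton, Finset.sum_singleton]
      have h := Qf_step a e r hu hu0 M
      push_cast at h ⊢
      rw [pow_succ]
      linear_combination (-(b M : ℂ) * (-z) ^ M) * h
  | succ N hMN ih =>
      rw [Finset.sum_Ico_succ_top (by omega), ih]
      have h := Qf_step a e r hu hu0 (N + 1)
      have h2 : (b (N + 1) : ℂ) = r * b N := by rw [hb N hMN]; push_cast; ring
      push_cast at h ⊢
      rw [h2, pow_succ (-z) (N + 1)]
      linear_combination (-(r * b N : ℂ) * (-z) ^ (N + 1)) * h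

/-- The main approximation of `G`. -/
lemma Gv_approx {b : ℕ → ℝ} (hbp : ∀ k, 0 < b k) {M : ℕ} {r : ℝ} (hr1 : 1 ≤ r) (hr2 : r ≤ 2)
    (hb : ∀ k, M ≤ k → b (k + 1) = r * b k) :
    ∃ C : ℝ, 0 ≤ C ∧ ∀ N, M ≤ N → 1 ≤ N → ∀ z : ℂ, ‖z - 1‖ ≤ 1 / 2 →
      ‖Gv b N z - (-z) ^ (N + 1) * (cc b r N : ℂ)‖ ≤
        ‖z‖ ^ (N + 1) * cc b r N * (8 * ‖z - 1‖) + C * (al b N + be b N) := by
  refine ⟨∑ k ∈ Finset.range M, b k * ((1 + k) * 2 ^ k) + b M * 2 ^ M * (M + 3), ?_, ?_⟩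
  · have : 0 ≤ ∑ k ∈ Finset.range M, b k * ((1 + k) * 2 ^ k) :=
      Finset.sum_nonneg fun k _ => mul_nonneg (hbp k).le (by positivity)
    have := hbp M
    positivity
  intro N hMN hN z hz
  set a := al b N with ha
  set e := be b N with he
  have ha0 : 0 ≤ a := al_nonneg hbp hN
  have he0 : 0 ≤ e := be_nonneg hbp hN
  have hae : a ≤ e * N := al_le_be hbp hN
  set u : ℂ := 1 + r * z with hu
  have hzn : ‖z‖ ≤ 2 := by
    have : z = (z - 1) + 1 := by ring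
    rw [this]
    refine (norm_add_le _ _).trans ?_
    rw [norm_one]; linarith
  have hzre : 1 / 2 ≤ z.re := by
    have := (Complex.abs_re_le_norm (z - 1)).trans hz
    rw [Complex.sub_re, Complex.one_re, abs_le] at this
    linarith [this.1]
  have hun : 1 ≤ ‖u‖ := by
    refine le_trans ?_ (Complex.re_le_norm u)
    rw [hu, Complex.add_re, Complex.one_re, Complex.re_ofReal_mul]
    nlinarith
  have hu0 : u ≠ 0 := by
    intro h; rw [h, norm_zero] at hun; linarith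
  -- splitting of the sum
  have hsplit : Gv b N z = ∑ k ∈ Finset.range M, ((b k * (a - e * k) : ℝ) : ℂ) * (-z) ^ k +
      (((r * b N : ℝ) : ℂ) * (-z) ^ (N + 1) * Qf a e u (N + 1) -
        (b M : ℂ) * (-z) ^ M * Qf a e u M) := by
    rw [← sum_tail hb a e hu hu0 N hMN, Gv, Finset.range_eq_Ico, Finset.range_eq_Ico,
      Finset.sum_Ico_consecutive _ (Nat.zero_le M) (by omega)]
    rfl
  -- the small part
  have hsmall1 : ‖∑ k ∈ Finset.range M, ((b k * (a - e * k) : ℝ) : ℂ) * (-z) ^ k‖ ≤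
      (∑ k ∈ Finset.range M, b k * ((1 + k) * 2 ^ k)) * (a + e) := by
    rw [Finset.sum_mul]
    refine norm_sum_le_of_le _ fun k _ => ?_
    rw [norm_mul, norm_pow, norm_neg, Complex.norm_real, Real.norm_eq_abs, abs_mul,
      abs_of_pos (hbp k)]
    have h1 : |a - e * k| ≤ (1 + k) * (a + e) := by
      have hk : (0 : ℝ) ≤ k := by positivity
      rw [abs_le]
      constructor <;> nlinarith [mul_nonneg hk ha0, mul_nonneg hk he0]
    have h2 : ‖z‖ ^ k ≤ 2 ^ k := pow_le_pow_left₀ (norm_nonneg _) hzn k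
    have hk0 : (0 : ℝ) ≤ 1 + k := by positivity
    calc b k * |a - e * k| * ‖z‖ ^ k ≤ b k * ((1 + k) * (a + e)) * 2 ^ k := by
          have := (hbp k).le
          gcongr
      _ = b k * ((1 + k) * 2 ^ k) * (a + e) := by ring
  have hsmall2 : ‖(b M : ℂ) * (-z) ^ M * Qf a e u M‖ ≤ (b M * 2 ^ M * (M + 3)) * (a + e) := by
    have hM0 : (0 : ℝ) ≤ M := by positivity
    rw [norm_mul, norm_mul, norm_pow, norm_neg, Complex.norm_real, Real.norm_eq_abs,
      abs_of_pos (hbp M)]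
    have h1 : ‖Qf a e u M‖ ≤ (M + 3) * (a + e) := by
      rw [Qf]
      refine (norm_add_le _ _).trans ?_
      rw [norm_div, norm_div, norm_pow, Complex.norm_real, Complex.norm_real, Real.norm_eq_abs,
        Real.norm_eq_abs, abs_of_nonneg he0]
      have h3 : |e * (M - 1) - a| / ‖u‖ ≤ |e * (M - 1) - a| := div_le_self (abs_nonneg _) hun
      have h4 : e / ‖u‖ ^ 2 ≤ e := div_le_self he0 (one_le_pow₀ hun)
      have h5 : |e * (M - 1) - a| ≤ (M + 1) * (a + e) := by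
        rw [abs_le]
        constructor <;> nlinarith [mul_nonneg hM0 ha0, mul_nonneg hM0 he0]
      nlinarith [mul_nonneg hM0 ha0, mul_nonneg hM0 he0]
    calc b M * ‖z‖ ^ M * ‖Qf a e u M‖ ≤ b M * 2 ^ M * ((M + 3) * (a + e)) := by
          have := (hbp M).le
          gcongr
      _ = (b M * 2 ^ M * (M + 3)) * (a + e) := by ring
  -- the main part
  have hr0 : (0 : ℝ) < 1 + r := by linarith
  have hur : ‖u - (1 + r : ℝ)‖ ≤ 2 * ‖z - 1‖ := by
    have : u - ((1 + r : ℝ) : ℂ) = r * (z - 1) := by rw [hu]; push_cast; ring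
    rw [this, norm_mul, Complex.norm_real, Real.norm_eq_abs, abs_of_pos (by linarith)]
    exact mul_le_mul_of_nonneg_right hr2 (norm_nonneg _)
  have hinv1 : ‖1 / u - 1 / ((1 + r : ℝ) : ℂ)‖ ≤ 8 * ‖z - 1‖ * (1 / (1 + r)) := by
    have hne : ((1 + r : ℝ) : ℂ) ≠ 0 := by exact_mod_cast hr0.ne'
    have : 1 / u - 1 / ((1 + r : ℝ) : ℂ) = -(u - (1 + r : ℝ)) / (u * (1 + r : ℝ)) := by
      field_simp
      ring
    rw [this, norm_div, norm_neg, norm_mul, Complex.norm_real, Real.norm_eq_abs,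
      abs_of_pos hr0]
    rw [div_le_iff₀ (by positivity)]
    have h1 : 8 * ‖z - 1‖ * (1 / (1 + r)) * (‖u‖ * (1 + r)) = 8 * ‖z - 1‖ * ‖u‖ := by
      field_simp
    rw [h1]
    nlinarith [norm_nonneg (z - 1)]
  have hinv2 : ‖1 / u ^ 2 - 1 / ((1 + r : ℝ) : ℂ) ^ 2‖ ≤ 8 * ‖z - 1‖ * (1 / (1 + r) ^ 2) := by
    have hne : ((1 + r : ℝ) : ℂ) ≠ 0 := by exact_mod_cast hr0.ne'
    have : 1 / u ^ 2 - 1 / ((1 + r : ℝ) : ℂ) ^ 2 =
        -(u - (1 + r : ℝ)) * (u + (1 + r : ℝ)) / (u ^ 2 * ((1 + r : ℝ) : ℂ) ^ 2) := by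
      field_simp
      ring
    rw [this, norm_div, norm_mul, norm_neg, norm_mul, norm_pow, norm_pow, Complex.norm_real,
      Real.norm_eq_abs, abs_of_pos hr0]
    rw [div_le_iff₀ (by positivity)]
    have h1 : 8 * ‖z - 1‖ * (1 / (1 + r) ^ 2) * (‖u‖ ^ 2 * (1 + r) ^ 2) =
        8 * ‖z - 1‖ * ‖u‖ ^ 2 := by
      field_simp
    rw [h1]
    have h2 : ‖u + ((1 + r : ℝ) : ℂ)‖ ≤ ‖u‖ + 3 := by
      refine (norm_add_le _ _).trans ?_
      rw [Complex.norm_real, Real.norm_eq_abs, abs_of_pos hr0]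
      linarith
    calc ‖u - ((1 + r : ℝ) : ℂ)‖ * ‖u + ((1 + r : ℝ) : ℂ)‖ ≤ (2 * ‖z - 1‖) * (‖u‖ + 3) := by
          gcongr
      _ ≤ 8 * ‖z - 1‖ * ‖u‖ ^ 2 := by
          have h3 : ‖u‖ + 3 ≤ 4 * ‖u‖ ^ 2 := by nlinarith
          nlinarith [norm_nonneg (z - 1)]
  have hmain : ‖((r * b N : ℝ) : ℂ) * (-z) ^ (N + 1) * Qf a e u (N + 1) -
      (-z) ^ (N + 1) * (cc b r N : ℂ)‖ ≤ ‖z‖ ^ (N + 1) * cc b r N * (8 * ‖z - 1‖) := by
    have h1 : ((r * b N : ℝ) : ℂ) * (-z) ^ (N + 1) * Qf a e u (N + 1) -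
        (-z) ^ (N + 1) * (cc b r N : ℂ) = (-z) ^ (N + 1) * (((r * b N : ℝ) : ℂ) *
          (((e * N - a : ℝ) : ℂ) * (1 / u - 1 / ((1 + r : ℝ) : ℂ)) +
            (e : ℂ) * (1 / u ^ 2 - 1 / ((1 + r : ℝ) : ℂ) ^ 2))) := by
      rw [Qf, cc]
      push_cast
      ring
    rw [h1, norm_mul, norm_mul, norm_pow, norm_neg, Complex.norm_real, Real.norm_eq_abs]
    have hrb : 0 < r * b N := mul_pos (by linarith) (hbp N)
    rw [abs_of_pos hrb]
    have h2 : ‖((e * N - a : ℝ) : ℂ) * (1 / u - 1 / ((1 + r : ℝ) : ℂ)) +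
            (e : ℂ) * (1 / u ^ 2 - 1 / ((1 + r : ℝ) : ℂ) ^ 2)‖ ≤
        (e * N - a) * (8 * ‖z - 1‖ * (1 / (1 + r))) + e * (8 * ‖z - 1‖ * (1 / (1 + r) ^ 2)) := by
      refine (norm_add_le _ _).trans (add_le_add ?_ ?_)
      · rw [norm_mul, Complex.norm_real, Real.norm_eq_abs, abs_of_nonneg (by linarith)]
        exact mul_le_mul_of_nonneg_left hinv1 (by linarith)
      · rw [norm_mul, Complex.norm_real, Real.norm_eq_abs, abs_of_nonneg he0]
        exact mul_le_mul_of_nonneg_left hinv2 he0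
    calc ‖z‖ ^ (N + 1) * (r * b N * ‖((e * N - a : ℝ) : ℂ) * (1 / u - 1 / ((1 + r : ℝ) : ℂ)) +
            (e : ℂ) * (1 / u ^ 2 - 1 / ((1 + r : ℝ) : ℂ) ^ 2)‖)
        ≤ ‖z‖ ^ (N + 1) * (r * b N * ((e * N - a) * (8 * ‖z - 1‖ * (1 / (1 + r))) +
            e * (8 * ‖z - 1‖ * (1 / (1 + r) ^ 2)))) := by gcongr
      _ = ‖z‖ ^ (N + 1) * cc b r N * (8 * ‖z - 1‖) := by rw [cc]; ring
  have hfin : Gv b N z - (-z) ^ (N + 1) * (cc b r N : ℂ) =
      (((r * b N : ℝ) : ℂ) * (-z) ^ (N + 1) * Qf a e u (N + 1) -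
        (-z) ^ (N + 1) * (cc b r N : ℂ)) +
      (∑ k ∈ Finset.range M, ((b k * (a - e * k) : ℝ) : ℂ) * (-z) ^ k) +
      -((b M : ℂ) * (-z) ^ M * Qf a e u M) := by
    rw [hsplit]; ring
  rw [hfin]
  refine (norm_add_le _ _).trans ?_
  rw [norm_neg]
  have h9 := norm_add_le ((((r * b N : ℝ) : ℂ) * (-z) ^ (N + 1) * Qf a e u (N + 1) -
        (-z) ^ (N + 1) * (cc b r N : ℂ)))
      (∑ k ∈ Finset.range M, ((b k * (a - e * k) : ℝ) : ℂ) * (-z) ^ k)
  have hexp : (∑ k ∈ Finset.range M, b k * ((1 + k) * 2 ^ k) + b M * 2 ^ M * (M + 3)) * (a + e)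
      = (∑ k ∈ Finset.range M, b k * ((1 + k) * 2 ^ k)) * (a + e) +
        (b M * 2 ^ M * (M + 3)) * (a + e) := by ring
  rw [hexp]
  linarith

end Pool.Agent.V1173.Opa
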